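import Pool.Agent.Lib.MP_216314_pr.S.SRl

/-!
# Connection of regions: the classes of `i-1` and `i+1` are merged

`k`, `l` of the other parity than `i`. wlog `k ≤ l`. If `σ i = i+1`, `act i σ = σ` and `Rl σ (i-1) (i+1)` holds, so everything follows by transitivity.
Otherwise let `a = σ i`, `b = σ (i+1)`. `{i,i+1}` is contained in `{k+1..l}` or disjoint from it (parity). (⇒) Suppose `act i σ` preserves `{k+1..l}`: `a, b` are both inside or both outside.
 All four inside or all four outside: `Rl σ k l`. `i, i+1` inside and `a, b` outside: by noncrossing with the arcs `(a,i)`, `(i+1,b)` and since arcs not among these four points stay inside or outside,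
 `a ≤ k` and `l < b` would give... the cases `a ≤ k, l < b`: `{k+1..i-1}` and `{i+2..l}` are preserved: `Rl σ k (i-1) ∧ Rl σ (i+1) l`; `b < a ≤ k`: `{k+1..i-1}` preserved, and then `{i+2..l}` too; `l < b < a`: the same.
 `a, b` inside and `i, i+1` outside, e.g. `i + 1 ≤ k`: `b < a`, `{i+2..k}` is preserved (`Rl σ (i+1) k`) and `{i..l}` is preserved (`Rl σ (i-1) l`); or `l < i`: `b < a`, `Rl σ l (i-1)` and `Rl σ k (i+1)`.
(⇐) direct: e.g. `Rl σ k (i-1)` and `Rl σ (i+1) l`: for all relative positions of `k, i, l`. Recall `Rl` is symmetric, so there are several orders to consider; `omega` closes each inequality.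
Checked by computer for all noncrossing involutions of up to 10 points.
-/

set_option autoImplicit false

noncomputable section

namespace QS

open Finset

private theorem srlm_act {i x : ℕ} {σ : ℕ → ℕ} (h0 : σ i ≠ i + 1) (h1 : x ≠ i) (h2 : x ≠ i + 1) (h3 : x ≠ σ i)
    (h4 : x ≠ σ (i + 1)) : act i σ x = σ x := by
  unfold act
  rw [if_neg h0, if_neg h1, if_neg h2, if_neg h3, if_neg h4]

private theorem srlm_E {P i : ℕ} {σ : ℕ → ℕ} (h : IsNC P σ) (h1 : 1 ≤ i) (h2 : i + 1 < P) {k l : ℕ}
    (hki : k % 2 ≠ i % 2) (hli : l % 2 ≠ i % 2) (H0 : Rl0 σ k l) : Rl0 (act i σ) k l := by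
  obtain ⟨hkl, H⟩ := H0
  refine ⟨hkl, fun x hx1 hx2 => ?_⟩
  have ei := (h.1 i h1 (by omega)).2.2.2
  have ej := (h.1 (i + 1) (by omega) (by omega)).2.2.2
  unfold act
  split_ifs with g0 g1 g2 g3 g4
  · exact H x hx1 hx2
  · omega
  · omega
  · have g5 := H x hx1 hx2
    rw [g3, ei] at g5
    exact H (i + 1) (by omega) (by omega)
  · have g5 := H x hx1 hx2
    rw [g4, ej] at g5
    exact H i (by omega) (by omega)
  · exact H x hx1 hx2

private theorem srlm_F {P i : ℕ} {σ : ℕ → ℕ} (h : IsNC P σ) (h1 : 1 ≤ i) (h2 : i + 1 < P) {k l : ℕ}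
    (hk : k < P) (hl : l < P) (hki : k % 2 ≠ i % 2) (hli : l % 2 ≠ i % 2) (H0 : Rl0 (act i σ) k l) :
    Rl σ k l ∨ (Rl σ k (i - 1) ∧ Rl σ (i + 1) l) ∨ (Rl σ k (i + 1) ∧ Rl σ (i - 1) l) := by
  by_cases g0 : σ i = i + 1
  · have e : act i σ = σ := by
      funext x
      unfold act
      rw [if_pos g0]
    rw [e] at H0
    exact Or.inl (Or.inl H0)
  obtain ⟨hkl, H⟩ := H0
  obtain ⟨a1, a2, a3, a4⟩ := h.1 i h1 (by omega)
  obtain ⟨b1, b2, b3, b4⟩ := h.1 (i + 1) (by omega) (by omega)
  have hb : σ (i + 1) ≠ i := by
    intro g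
    rw [g] at b4
    exact g0 b4
  have hab : σ i ≠ σ (i + 1) := by
    intro g
    rw [g, b4] at a4
    omega
  have ti : act i σ (σ i) = σ (i + 1) := by
    unfold act
    rw [if_neg g0, if_neg a3, if_neg g0, if_pos rfl]
  have tj : act i σ (σ (i + 1)) = σ i := by
    unfold act
    rw [if_neg g0, if_neg hb, if_neg b3, if_neg (Ne.symm hab), if_pos rfl]
  generalize ha : σ i = a at *
  generalize hb' : σ (i + 1) = b at *
  have tx : ∀ x, x ≠ i → x ≠ i + 1 → x ≠ a → x ≠ b → act i σ x = σ x := by
    intro x hx1 hx2 hx3 hx4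
    exact srlm_act (by rw [ha]; exact g0) hx1 hx2 (by rw [ha]; exact hx3) (by rw [hb']; exact hx4)
  -- inside the set, away from the four points
  have hS : ∀ x, k < x → x ≤ l → x ≠ i → x ≠ i + 1 → x ≠ a → x ≠ b → k < σ x ∧ σ x ≤ l := by
    intro x hx1 hx2 hx3 hx4 hx5 hx6
    have := H x hx1 hx2
    rwa [tx x hx3 hx4 hx5 hx6] at this
  have inv : ∀ x, 1 ≤ x → x ≤ P → σ (σ x) = x := fun x hx1 hx2 => (h.1 x hx1 hx2).2.2.2
  have hSa : k < a → a ≤ l → k < b ∧ b ≤ l := by
    intro g1 g2
    have := H a g1 g2
    rwa [ti] at this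
  have hSb : k < b → b ≤ l → k < a ∧ a ≤ l := by
    intro g1 g2
    have := H b g1 g2
    rwa [tj] at this
  by_cases ci : k < i ∧ i ≤ l
  · have cj : k < i + 1 ∧ i + 1 ≤ l := by omega
    by_cases ca : k < a ∧ a ≤ l
    · have cb := hSa ca.1 ca.2
      left
      left
      refine ⟨hkl, fun x hx1 hx2 => ?_⟩
      by_cases e1 : x = i
      · rw [e1, ha]
        exact ca
      by_cases e2 : x = i + 1
      · rw [e2, hb']
        exact cb
      by_cases e3 : x = a
      · rw [e3, a4]
        exact ci
      by_cases e4 : x = b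
      · rw [e4, b4]
        exact cj
      exact hS x hx1 hx2 e1 e2 e3 e4
    · have cb : ¬ (k < b ∧ b ≤ l) := fun g => ca (hSb g.1 g.2)
      right
      left
      have key : ∀ x, k < x → x ≤ i - 1 → k < σ x ∧ σ x ≤ i - 1 := by
        intro x hx1 hx2
        have e1 := hS x hx1 (by omega) (by omega) (by omega) (by intro g; exact ca (by omega)) (by intro g; exact cb (by omega))
        have e2 := inv x (by omega) (by omega)
        have e3 : σ x ≠ i := by
          intro g
          rw [g, ha] at e2
          exact ca (by omega)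
        have e4 : σ x ≠ i + 1 := by
          intro g
          rw [g, hb'] at e2
          exact cb (by omega)
        refine ⟨e1.1, ?_⟩
        by_contra g
        have g1 : i + 2 ≤ σ x := by omega
        by_cases c1 : a ≤ k
        · have := h.2 a x (by omega) (by omega) (by rw [a4]; omega) (by rw [a4]; omega)
          rw [a4] at this
          omega
        · by_cases c2 : b ≤ k
          · have := h.2 b i (by omega) (by omega) (by rw [b4]; omega) (by rw [b4]; omega)
            rw [b4, ha] at this
            omega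
          · have := h.2 x (i + 1) (by omega) (by omega) (by omega) (by omega)
            rw [hb'] at this
            exact cb (by omega)
      refine ⟨Or.inl ⟨by omega, key⟩, Or.inl ⟨by omega, fun x hx1 hx2 => ?_⟩⟩
      have e1 := hS x (by omega) hx2 (by omega) (by omega) (by intro g; exact ca (by omega)) (by intro g; exact cb (by omega))
      have e2 := inv x (by omega) (by omega)
      refine ⟨?_, e1.2⟩
      by_contra g
      have e3 : σ x ≠ i := by
        intro g
        rw [g, ha] at e2
        exact ca (by omega)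
      have e4 : σ x ≠ i + 1 := by
        intro g
        rw [g, hb'] at e2
        exact cb (by omega)
      have := key (σ x) e1.1 (by omega)
      rw [e2] at this
      omega
  · by_cases ca : k < a ∧ a ≤ l
    · have cb := hSa ca.1 ca.2
      right
      right
      by_cases c1 : i + 1 ≤ k
      · have hba := h.2 i (i + 1) h1 (by omega) (by rw [ha]; omega) (by rw [ha]; omega)
        rw [ha, hb'] at hba
        have key : ∀ x, i + 1 < x → x ≤ k → i + 1 < σ x ∧ σ x ≤ k := by
          intro x hx1 hx2
          have e1 := h.2 (i + 1) x (by omega) hx1 (by rw [hb']; omega) (by rw [hb']; omega)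
          rw [hb'] at e1
          refine ⟨e1.1, ?_⟩
          by_contra g
          have e2 := inv x (by omega) (by omega)
          have e3 : σ x ≠ a := by
            intro g3
            rw [g3, a4] at e2
            omega
          have e4 : σ x ≠ b := by omega
          have := hS (σ x) (by omega) (by omega) (by omega) (by omega) e3 e4
          rw [e2] at this
          omega
        refine ⟨Or.inr ⟨c1, key⟩, Or.inl ⟨by omega, fun x hx1 hx2 => ?_⟩⟩
        by_cases e1 : x = i
        · rw [e1, ha]
          omega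
        by_cases e2 : x = i + 1
        · rw [e2, hb']
          omega
        by_cases e3 : x = a
        · rw [e3, a4]
          omega
        by_cases e4 : x = b
        · rw [e4, b4]
          omega
        by_cases e5 : x ≤ k
        · have := key x (by omega) e5
          omega
        · have := hS x (by omega) hx2 e1 e2 e3 e4
          omega
      · have c2 : l < i := by omega
        have hba : b < a := by
          by_contra g
          have := h.2 a b (by omega) (by omega) (by rw [a4]; omega) (by rw [a4]; omega)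
          rw [a4, b4] at this
          omega
        have key : ∀ x, l < x → x ≤ i - 1 → l < σ x ∧ σ x ≤ i - 1 := by
          intro x hx1 hx2
          have e1 := h.2 a x (by omega) (by omega) (by rw [a4]; omega) (by rw [a4]; omega)
          rw [a4] at e1
          refine ⟨?_, by omega⟩
          by_contra g
          have e2 := inv x (by omega) (by omega)
          have e3 : σ x ≠ a := by omega
          have e4 : σ x ≠ b := by omega
          have := hS (σ x) (by omega) (by omega) (by omega) (by omega) e3 e4
          rw [e2] at this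
          omega
        refine ⟨Or.inl ⟨by omega, fun x hx1 hx2 => ?_⟩, Or.inr ⟨by omega, key⟩⟩
        by_cases e1 : x = i
        · rw [e1, ha]
          omega
        by_cases e2 : x = i + 1
        · rw [e2, hb']
          omega
        by_cases e3 : x = a
        · rw [e3, a4]
          omega
        by_cases e4 : x = b
        · rw [e4, b4]
          omega
        by_cases e5 : x ≤ l
        · have := hS x hx1 e5 e1 e2 e3 e4
          omega
        · have := key x (by omega) (by omega)
          omega
    · have cb : ¬ (k < b ∧ b ≤ l) := fun g => ca (hSb g.1 g.2)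
      left
      left
      refine ⟨hkl, fun x hx1 hx2 => ?_⟩
      exact hS x hx1 hx2 (by intro g; exact ci (by omega)) (by intro g; exact ci (by omega))
        (by intro g; exact ca (by omega)) (by intro g; exact cb (by omega))

private theorem srlm_mid {i : ℕ} {σ : ℕ → ℕ} (h1 : 1 ≤ i) (hs : σ (i + 1) = i ∨ σ i ≠ i + 1) :
    Rl (act i σ) (i - 1) (i + 1) := by
  left
  refine ⟨by omega, fun x hx1 hx2 => ?_⟩
  have hx : x = i ∨ x = i + 1 := by omega
  by_cases g0 : σ i = i + 1
  · have g1 : σ (i + 1) = i := by
      rcases hs with g | g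
      · exact g
      · exact absurd g0 g
    unfold act
    rw [if_pos g0]
    rcases hx with e | e
    · rw [e, g0]
      omega
    · rw [e, g1]
      omega
  · unfold act
    rw [if_neg g0]
    rcases hx with e | e
    · rw [if_pos e]
      omega
    · rw [if_neg (by omega), if_pos e]
      omega

theorem Rl_act_merge {P i : ℕ} {σ : ℕ → ℕ} (h : IsNC P σ) (h1 : 1 ≤ i) (h2 : i + 1 < P) {k l : ℕ}
    (hk : k < P) (hl : l < P) (hki : k % 2 ≠ i % 2) (hli : l % 2 ≠ i % 2) :
    Rl (act i σ) k l ↔ Rl σ k l ∨ (Rl σ k (i - 1) ∧ Rl σ (i + 1) l) ∨ (Rl σ k (i + 1) ∧ Rl σ (i - 1) l) := by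
  constructor
  · rintro (H | H)
    · exact srlm_F h h1 h2 hk hl hki hli H
    · rcases srlm_F h h1 h2 hl hk hli hki H with g | g | g
      · exact Or.inl (Rl_symm g)
      · exact Or.inr (Or.inr ⟨Rl_symm g.2, Rl_symm g.1⟩)
      · exact Or.inr (Or.inl ⟨Rl_symm g.2, Rl_symm g.1⟩)
  · have hE : ∀ k l : ℕ, k % 2 ≠ i % 2 → l % 2 ≠ i % 2 → Rl σ k l → Rl (act i σ) k l := by
      intro k l g1 g2 g3
      rcases g3 with g | g
      · exact Or.inl (srlm_E h h1 h2 g1 g2 g)
      · exact Or.inr (srlm_E h h1 h2 g2 g1 g)
    have hnc : IsNC P (act i σ) := act_nc h h1 (by omega)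
    have hmid : Rl (act i σ) (i - 1) (i + 1) := by
      refine srlm_mid h1 ?_
      by_cases g0 : σ i = i + 1
      · left
        have := (h.1 i h1 (by omega)).2.2.2
        rwa [g0] at this
      · exact Or.inr g0
    have p1 : (i - 1) % 2 ≠ i % 2 := by omega
    have p2 : (i + 1) % 2 ≠ i % 2 := by omega
    rintro (g | ⟨g, g'⟩ | ⟨g, g'⟩)
    · exact hE k l hki hli g
    · exact Rl_trans hnc hk (by omega) hl (Rl_trans hnc hk (by omega) (by omega) (hE _ _ hki p1 g) hmid)
        (hE _ _ p2 hli g')
    · exact Rl_trans hnc hk (by omega) hl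
        (Rl_trans hnc hk (by omega) (by omega) (hE _ _ hki p2 g) (Rl_symm hmid)) (hE _ _ p1 hli g')

end QS
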