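import Pool.Agent.Lib.MP_216314_pr.S.SRlC
import Pool.Agent.Lib.MP_216314_pr.S.SRlM

/-!
# The class of the marked strand

All statements follow from `Rl_act_cut`, `Rl_act_merge`, `Rl_trans`, `exp_odd` and the definition of `mk`.
-/

set_option autoImplicit false

noncomputable section

namespace QS

open Finset

/-- odd `i` (a region of the colour of the mark is cut): the class of the mark loses the region `i` -/
theorem mark_cut {P i a : ℕ} {σ : ℕ → ℕ} (h : IsNC P σ) (h1 : 1 ≤ i) (h2 : i + 1 < P) (hi : i % 2 = 1)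
    (ha : Exp P σ a) (hna : ¬(i = a ∧ σ a = a + 1)) {k : ℕ} (hk : k < P) (hk1 : k % 2 = 1) :
    Rl (act i σ) (mk i σ a) k ↔ Rl σ a k ∧ k ≠ i := by
  have hao := exp_odd h ha
  have haP : a < P := ha.2.1
  by_cases hia : i = a
  · subst hia
    have hE := exp_stp h h1 h2 ha hna
    have hmk : mk i σ i = σ (i + 1) := by
      unfold mk
      rw [if_neg (by omega), if_pos rfl]
    rw [hmk] at hE ⊢
    have hco := exp_odd (act_nc h h1 (by omega)) hE
    have hcP : σ (i + 1) < P := hE.2.1
    have hσi : σ i ≠ i + 1 := fun hc => hna ⟨rfl, hc⟩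
    obtain ⟨-, hP2, -, hii⟩ := h.1 i h1 (by omega)
    obtain ⟨-, -, hf, hinv⟩ := h.1 (i + 1) (by omega) (by omega)
    have hgt : i < σ i := ha.2.2.2
    obtain ⟨h3, h4⟩ := h.2 i (i + 1) h1 (by omega) (by omega) hP2
    have hc1 : i + 1 < σ (i + 1) := by omega
    have hac : Rl σ i (σ (i + 1)) := by
      left
      refine ⟨by omega, fun x hx1 hx2 => ?_⟩
      rcases Nat.lt_trichotomy x (i + 1) with hx | hx | hx
      · omega
      · subst hx
        omega
      · rcases Nat.lt_or_ge x (σ (i + 1)) with hx3 | hx3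
        · have h5 := h.2 (i + 1) x (by omega) hx hx3 (by omega)
          omega
        · have hx4 : x = σ (i + 1) := by omega
          subst hx4
          rw [hinv]
          omega
    rw [Rl_act_cut h h1 h2 hcP hk (by omega) (by omega)]
    constructor
    · rintro (h5 | ⟨-, h6, h7⟩)
      · subst h5
        exact ⟨hac, by omega⟩
      · exact ⟨Rl_trans h haP hcP hk hac h7, h6⟩
    · rintro ⟨h5, h6⟩
      right
      exact ⟨by omega, h6, Rl_trans h hcP haP hk (Rl_symm hac) h5⟩
  · have hmk : mk i σ a = a := by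
      unfold mk
      rw [if_neg (by omega), if_neg hia]
    rw [hmk, Rl_act_cut h h1 h2 haP hk (by omega) (by omega)]
    constructor
    · rintro (h5 | ⟨-, h6, h7⟩)
      · subst h5
        exact ⟨Rl_refl σ a, fun hc => hia hc.symm⟩
      · exact ⟨h7, h6⟩
    · rintro ⟨h5, h6⟩
      right
      exact ⟨fun hc => hia hc.symm, h6, h5⟩

/-- even `i`: the classes of `i-1` and `i+1` are merged -/
theorem mark_merge {P i a : ℕ} {σ : ℕ → ℕ} (h : IsNC P σ) (h1 : 1 ≤ i) (h2 : i + 1 < P) (hi : i % 2 = 0)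
    (ha : Exp P σ a) {k : ℕ} (hk : k < P) (hk1 : k % 2 = 1) :
    Rl (act i σ) (mk i σ a) k ↔ Rl σ a k ∨ (Rl σ a (i - 1) ∧ Rl σ (i + 1) k) ∨ (Rl σ a (i + 1) ∧ Rl σ (i - 1) k) := by
  have hao := exp_odd h ha
  have haP : a < P := ha.2.1
  by_cases hia : i + 1 = a
  · subst hia
    have hE := exp_stp h h1 h2 ha (fun hc => by omega)
    have hmk : mk i σ (i + 1) = σ i := by
      unfold mk
      rw [if_pos rfl]
    rw [hmk] at hE ⊢
    have hco := exp_odd (act_nc h h1 (by omega)) hE
    have hcP : σ i < P := hE.2.1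
    obtain ⟨hi1, hi2, hi3, hi4⟩ := h.1 i h1 (by omega)
    have hlt : σ i < i + 1 := ha.2.2.1 i h1 (by omega)
    have hci : Rl σ (σ i) (i - 1) := by
      left
      refine ⟨by omega, fun x hx1 hx2 => ?_⟩
      have h5 := h.2 (σ i) x hi1 hx1 (by rw [hi4]; omega) (by rw [hi4]; omega)
      rw [hi4] at h5
      omega
    have hi' : i - 1 < P := by omega
    rw [Rl_act_merge h h1 h2 hcP hk (by omega) (by omega)]
    constructor
    · rintro (h5 | ⟨-, h6⟩ | ⟨-, h6⟩)
      · right
        right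
        exact ⟨Rl_refl σ _, Rl_trans h hi' hcP hk (Rl_symm hci) h5⟩
      · left
        exact h6
      · right
        right
        exact ⟨Rl_refl σ _, h6⟩
    · rintro (h5 | ⟨-, h6⟩ | ⟨-, h6⟩)
      · right
        left
        exact ⟨hci, h5⟩
      · right
        left
        exact ⟨hci, h6⟩
      · left
        exact Rl_trans h hcP hi' hk hci h6
  · have hmk : mk i σ a = a := by
      unfold mk
      rw [if_neg hia, if_neg (by omega)]
    rw [hmk]
    exact Rl_act_merge h h1 h2 haP hk (by omega) (by omega)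

theorem mark_dead {P a : ℕ} {σ : ℕ → ℕ} (h : IsNC P σ) (ha : Exp P σ a) (hd : σ a = a + 1) {k : ℕ} (hk : k < P) :
    Rl σ a k ↔ k = a := by
  obtain ⟨-, -, -, hinv⟩ := h.1 a ha.1 ha.2.1.le
  constructor
  · rintro (⟨h1, h2⟩ | ⟨h1, h2⟩)
    · by_contra hne
      have h3 := h2 (a + 1) (by omega) (by omega)
      rw [← hd, hinv] at h3
      omega
    · by_contra hne
      have h3 := h2 a (by omega) le_rfl
      omega
  · intro h1
    subst h1
    exact Rl_refl σ k

theorem mark_end {P a : ℕ} {σ : ℕ → ℕ} (h : IsNC P σ) (ha : Exp P σ a) : Rl σ a (P - 1) ↔ σ a = P := by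
  obtain ⟨ha1, haP, -, hgt⟩ := ha
  obtain ⟨-, hP2, -, hinv⟩ := h.1 a ha1 haP.le
  constructor
  · rintro (⟨h1, h2⟩ | ⟨h1, h2⟩)
    · by_contra hne
      have h3 := h2 (σ a) hgt (by omega)
      rw [hinv] at h3
      omega
    · omega
  · intro h1
    left
    refine ⟨by omega, fun x hx1 hx2 => ?_⟩
    have h3 := h.2 a x ha1 hx1 (by omega) hP2
    omega

end QS
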