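import Pool.Agent.Lib.MP_216314_pr.S.SPer

/-!
# From the eigenvector to the limit

`pm n m = <v0, A^m O A^m v0>` with `O = Ox 1`.

`spec`: let `A Ψ = Ψ` on the sector and `ip Ψ Ψ ≠ 0`. Then `pm n m → ip Ψ (O Ψ) / ip Ψ Ψ`.
Proof. `g m = A^m v0`, `ip v0 (g m) = 1` (`ip_iter`). Let `κ = ip v0 Ψ`, `x m = Ψ - κ g m`: `ip v0 (x m) = 0` and `x (m+1) = A (x m)` on the sector,
so by `AA_rest` `x (m+1)` agrees on the sector with the rest `r` of `x m`, hence (`opW_sec`) `Bd (x m) (θ^m C)`, `θ = 1 - 2^(-4n) < 1`, `C = ∑ ‖x 0‖`. So `x m D → 0` for `D ∈ sec n`.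
`‖g m D‖ ≤ C0 = ∑ ‖v0‖` for all `m` (`Bd_sum`, `Bd_AA`). `ip (g m) (g m) = ip v0 (g (2m)) = 1` (`ip_AA` iterated), so
`ip Ψ Ψ = κ^2 + 2 κ ip (g m) (x m) + ip (x m) (x m) → κ^2`, hence `ip Ψ Ψ = κ^2 ≠ 0`. `pm n m = ip (g m) (O g m)` (`ip_AA` iterated), and
`ip Ψ (O Ψ) = κ^2 pm n m + κ ip (g m) (O x m) + κ ip (x m) (O g m) + ip (x m) (O x m)`, the last three terms tend to `0`.
-/

set_option autoImplicit false

noncomputable section

namespace QS

open Finset Filter Topology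

/-- `<v0, A^m O A^m v0>` -/
def pm (n m : ℕ) : ℂ := ip n (v0 n) ((AA n)^[m] (Ox 1 ((AA n)^[m] (v0 n))))

theorem sspec_congr {n : ℕ} {v v' w w' : Vc} (h : ∀ D ∈ sec n, v D = v' D) (h' : ∀ D ∈ sec n, w D = w' D) :
    ip n v w = ip n v' w' := by
  unfold ip
  exact sum_congr rfl (fun D hD => by rw [h D hD, h' D hD])

theorem sspec_bound {n : ℕ} {v w : Vc} {A B : ℝ} (hA : ∀ D ∈ sec n, ‖v D‖ ≤ A) (hB : ∀ D ∈ sec n, ‖w D‖ ≤ B) :
    ‖ip n v w‖ ≤ (sec n).card * (A * B) := by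
  unfold ip
  refine (norm_sum_le _ _).trans ?_
  have h1 : ∀ D ∈ sec n, ‖v D * w D‖ ≤ A * B := by
    intro D hD
    rw [norm_mul]
    exact mul_le_mul (hA D hD) (hB D hD) (norm_nonneg _) ((norm_nonneg _).trans (hA D hD))
  refine (sum_le_sum h1).trans (le_of_eq ?_)
  rw [sum_const, nsmul_eq_mul]

theorem sspec_Ox (a : ℕ) (v : Vc) (D : Finset ℕ) : ‖Ox a v D‖ = ‖v D‖ := by
  unfold Ox
  split_ifs
  · rw [norm_mul, norm_inv, norm_pow, s_norm, one_pow, inv_one, one_mul]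
  · rfl

theorem sspec_lin (n : ℕ) (c : ℂ) (v v' w w' : Vc) :
    ip n (fun D => c * v D + v' D) (fun D => c * w D + w' D) =
      c ^ 2 * ip n v w + (c * ip n v w' + c * ip n v' w + ip n v' w') := by
  unfold ip
  simp only [mul_sum, ← sum_add_distrib]
  exact sum_congr rfl (fun D _ => by ring)

theorem sspec_right (n : ℕ) (c : ℂ) (v w w' : Vc) :
    ip n v (fun D => w D + c * w' D) = ip n v w + c * ip n v w' := by
  unfold ip
  simp only [mul_sum, ← sum_add_distrib]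
  exact sum_congr rfl (fun D _ => by ring)

/-- a quantity bounded by a constant times `θ ^ m` tends to zero -/
theorem sspec_lim {f : ℕ → ℂ} {K θ : ℝ} (h0 : 0 ≤ θ) (h1 : θ < 1) (h : ∀ m, ‖f m‖ ≤ θ ^ m * K) :
    Tendsto f atTop (𝓝 0) := by
  refine squeeze_zero_norm h ?_
  have h2 := (tendsto_pow_atTop_nhds_zero_of_lt_one h0 h1).mul_const K
  rwa [zero_mul] at h2

theorem ip_iter_symm (n m : ℕ) (v w : Vc) : ip n v ((AA n)^[m] w) = ip n ((AA n)^[m] v) w := by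
  induction m generalizing v w with
  | zero => rfl
  | succ m ih => rw [Function.iterate_succ_apply', ip_AA, ih, Function.iterate_succ_apply]

theorem spec (n : ℕ) (Ψ : Vc) (h : ∀ D ∈ sec n, AA n Ψ D = Ψ D) (h0 : ip n Ψ Ψ ≠ 0) :
    Tendsto (fun m => pm n m) atTop (𝓝 (ip n Ψ (Ox 1 Ψ) / ip n Ψ Ψ)) := by
  set g : ℕ → Vc := fun m => (AA n)^[m] (v0 n) with hg
  set κ : ℂ := ip n (v0 n) Ψ with hκ
  set x : ℕ → Vc := fun m D => Ψ D + (-κ) * g m D with hx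
  set θ : ℝ := 1 - (1 / 2) ^ (4 * n) with hθ
  have hδ : (0 : ℝ) < (1 / 2) ^ (4 * n) := by positivity
  have hδ1 : ((1 : ℝ) / 2) ^ (4 * n) ≤ 1 := pow_le_one₀ (by norm_num) (by norm_num)
  have hθ0 : 0 ≤ θ := by rw [hθ]; linarith
  have hθ1 : θ < 1 := by rw [hθ]; linarith
  set C : ℝ := ∑ D ∈ sec n, ‖x 0 D‖ with hC
  set C0 : ℝ := ∑ D ∈ sec n, ‖v0 n D‖ with hC0
  have hCn : 0 ≤ C := sum_nonneg (fun D _ => norm_nonneg _)
  have hC0n : 0 ≤ C0 := sum_nonneg (fun D _ => norm_nonneg _)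
  have hsucc : ∀ m, g (m + 1) = AA n (g m) := fun m => Function.iterate_succ_apply' _ _ _
  have hA : ∀ m, ip n (v0 n) (x m) = 0 := by
    intro m
    have e : ip n (v0 n) (x m) = ip n (v0 n) Ψ + (-κ) * ip n (v0 n) (g m) := sspec_right n (-κ) (v0 n) Ψ (g m)
    rw [e, ip_iter n m, ← hκ]
    ring
  have hB : ∀ m, ∀ D ∈ sec n, x (m + 1) D = AA n (x m) D := by
    intro m D hD
    have e1 : AA n (x m) = fun D => AA n Ψ D + (-κ) * AA n (g m) D := by
      show opH (per n) (fun D => Ψ D + (-κ) * g m D) = _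
      rw [opH_add (per n) Ψ (fun D => (-κ) * g m D), opH_smul]
      rfl
    rw [e1]
    show Ψ D + (-κ) * g (m + 1) D = AA n Ψ D + (-κ) * AA n (g m) D
    rw [h D hD, hsucc m]
  have hBd : ∀ m, Bd n (x m) (θ ^ m * C) := by
    intro m
    induction m with
    | zero => rw [pow_zero, one_mul]; exact Bd_sum n (x 0)
    | succ m ih =>
      obtain ⟨r, hr1, hr2⟩ := AA_rest ih
      have e : ∀ D ∈ sec n, x (m + 1) D = r D := by
        intro D hD
        rw [hB m D hD, hr1 D hD, hA m]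
        ring
      intro w hw D hD
      rw [opW_sec w hw e D hD]
      refine (hr2 w hw D hD).trans (le_of_eq ?_)
      rw [pow_succ, hθ]
      ring
  have hx1 : ∀ m, ∀ D ∈ sec n, ‖x m D‖ ≤ θ ^ m * C := fun m D hD => Bd_le (hBd m) hD
  have hgB : ∀ m, Bd n (g m) C0 := by
    intro m
    induction m with
    | zero => exact Bd_sum n (v0 n)
    | succ m ih => rw [hsucc m]; exact Bd_AA ih
  have hg1 : ∀ m, ∀ D ∈ sec n, ‖g m D‖ ≤ C0 := fun m D hD => Bd_le (hgB m) hD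
  have hgO : ∀ m, ∀ D ∈ sec n, ‖Ox 1 (g m) D‖ ≤ C0 := fun m D hD => by rw [sspec_Ox]; exact hg1 m D hD
  have hxO : ∀ m, ∀ D ∈ sec n, ‖Ox 1 (x m) D‖ ≤ θ ^ m * C := fun m D hD => by rw [sspec_Ox]; exact hx1 m D hD
  have hpw : ∀ m, θ ^ m ≤ 1 := fun m => pow_le_one₀ hθ0 hθ1.le
  have hpw0 : ∀ m, 0 ≤ θ ^ m := fun m => pow_nonneg hθ0 m
  -- limits of the error terms
  have lim1 : ∀ (a b c d : ℕ → Vc), (∀ m, ∀ D ∈ sec n, ‖a m D‖ ≤ C0) → (∀ m, ∀ D ∈ sec n, ‖b m D‖ ≤ C0) →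
      (∀ m, ∀ D ∈ sec n, ‖c m D‖ ≤ θ ^ m * C) → (∀ m, ∀ D ∈ sec n, ‖d m D‖ ≤ θ ^ m * C) →
      Tendsto (fun m => κ * ip n (a m) (d m) + κ * ip n (c m) (b m) + ip n (c m) (d m)) atTop (𝓝 0) := by
    intro a b c d ha hb hc hd
    have t1 : Tendsto (fun m => ip n (a m) (d m)) atTop (𝓝 0) := by
      refine sspec_lim (K := (sec n).card * (C0 * C)) hθ0 hθ1 (fun m => ?_)
      refine (sspec_bound (ha m) (hd m)).trans (le_of_eq (by ring))
    have t2 : Tendsto (fun m => ip n (c m) (b m)) atTop (𝓝 0) := by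
      refine sspec_lim (K := (sec n).card * (C * C0)) hθ0 hθ1 (fun m => ?_)
      refine (sspec_bound (hc m) (hb m)).trans (le_of_eq (by ring))
    have t3 : Tendsto (fun m => ip n (c m) (d m)) atTop (𝓝 0) := by
      refine sspec_lim (K := (sec n).card * (C * C)) hθ0 hθ1 (fun m => ?_)
      refine (sspec_bound (hc m) (hd m)).trans ?_
      have q : θ ^ m * C * (θ ^ m * C) ≤ θ ^ m * (C * C) := by
        have q1 : θ ^ m * (θ ^ m * (C * C)) ≤ 1 * (θ ^ m * (C * C)) :=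
          mul_le_mul_of_nonneg_right (hpw m) (mul_nonneg (hpw0 m) (mul_nonneg hCn hCn))
        calc θ ^ m * C * (θ ^ m * C) = θ ^ m * (θ ^ m * (C * C)) := by ring
          _ ≤ 1 * (θ ^ m * (C * C)) := q1
          _ = θ ^ m * (C * C) := one_mul _
      calc ((sec n).card : ℝ) * (θ ^ m * C * (θ ^ m * C)) ≤ (sec n).card * (θ ^ m * (C * C)) :=
            mul_le_mul_of_nonneg_left q (Nat.cast_nonneg _)
        _ = θ ^ m * ((sec n).card * (C * C)) := by ring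
    have t4 := ((t1.const_mul κ).add (t2.const_mul κ)).add t3
    simpa using t4
  have hΨ : ∀ m, Ψ = fun D => κ * g m D + x m D := by
    intro m
    funext D
    show Ψ D = κ * g m D + (Ψ D + (-κ) * g m D)
    ring
  have hgg : ∀ m, ip n (g m) (g m) = 1 := by
    intro m
    have e := ip_iter_symm n m (v0 n) (g m)
    have e2 : (AA n)^[m] (g m) = (AA n)^[m + m] (v0 n) := (Function.iterate_add_apply (AA n) m m (v0 n)).symm
    rw [e2, ip_iter] at e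
    exact e.symm
  have hpm : ∀ m, pm n m = ip n (g m) (Ox 1 (g m)) := fun m => ip_iter_symm n m (v0 n) (Ox 1 (g m))
  -- the norm of the eigenvector
  have e1 : ∀ m, ip n Ψ Ψ = κ ^ 2 + (κ * ip n (g m) (x m) + κ * ip n (x m) (g m) + ip n (x m) (x m)) := by
    intro m
    have q := sspec_lin n κ (g m) (x m) (g m) (x m)
    rw [← hΨ m, hgg m, mul_one] at q
    exact q
  have e2 : ip n Ψ Ψ = κ ^ 2 := by
    have t := (lim1 g g x x hg1 hg1 hx1 hx1).const_add (κ ^ 2)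
    have t' : Tendsto (fun _ : ℕ => ip n Ψ Ψ) atTop (𝓝 (κ ^ 2 + 0)) := by
      refine t.congr (fun m => ?_)
      exact (e1 m).symm
    rw [add_zero] at t'
    exact tendsto_nhds_unique tendsto_const_nhds t'
  have hκ0 : κ ^ 2 ≠ 0 := by rw [← e2]; exact h0
  -- the expectation
  have e3 : ∀ m, ip n Ψ (Ox 1 Ψ) = κ ^ 2 * pm n m +
      (κ * ip n (g m) (Ox 1 (x m)) + κ * ip n (x m) (Ox 1 (g m)) + ip n (x m) (Ox 1 (x m))) := by
    intro m
    have q := sspec_lin n κ (g m) (x m) (Ox 1 (g m)) (Ox 1 (x m))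
    have o : (fun D => κ * Ox 1 (g m) D + Ox 1 (x m) D) = Ox 1 Ψ := by
      rw [hΨ m, Ox_add 1 (fun D => κ * g m D) (x m), Ox_smul]
    rw [o, ← hΨ m, ← hpm m] at q
    exact q
  have t5 := lim1 g (fun m => Ox 1 (g m)) x (fun m => Ox 1 (x m)) hg1 hgO hx1 hxO
  have t6 := (t5.const_sub (ip n Ψ (Ox 1 Ψ))).div_const (κ ^ 2)
  rw [sub_zero] at t6
  rw [e2]
  refine t6.congr (fun m => ?_)
  have q := e3 m
  have : ip n Ψ (Ox 1 Ψ) - (κ * ip n (g m) (Ox 1 (x m)) + κ * ip n (x m) (Ox 1 (g m)) + ip n (x m) (Ox 1 (x m))) =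
      κ ^ 2 * pm n m := by
    rw [q]
    ring
  show (ip n Ψ (Ox 1 Ψ) - (κ * ip n (g m) (Ox 1 (x m)) + κ * ip n (x m) (Ox 1 (g m)) + ip n (x m) (Ox 1 (x m)))) / κ ^ 2 = pm n m
  rw [this, mul_div_cancel_left₀ _ hκ0]

end QS
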