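import Pool.Agent.Lib.MP_216314_pr.S.SPro

/-!
# The final pairing

`actW_odd`: after the word `1,3,...,2n-1` all arcs are `(1,2),(3,4),...`: after the letter `i` the points `i, i+1` are matched, and the later letters `i+2, ...` do not change this (`act j` with `j, j+1 ∉ {i, i+1}` and
`{i,i+1}` an arc: the partners of `j`, `j+1` are not `i`, `i+1`). The two last points `2n+1`, `2n+2` are matched since all the others are (involution).
`ip_vec`: by `proj0` (at some `D` with `v0 n D ≠ 0`), `opW_vec`, and `vec n (actW (oddL n) σ) D = v0 n D` (`actW_odd`; `Th` depends only on the values of `σ` on `Icc 1 P`).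
`ip_mark`, `σ a = 2n+2`: then `Ox a (vec n σ) = vec n σ` (`a ∉ insert (2n+2) D` on the support). `σ a < 2n+2`: `run (oddL n) (some (σ,a)) = none`: along the run with odd letters the right end `b = σ a` of the marked arc never increases
(`a` is odd, so `i + 1 = a` does not occur for odd `i`; `b` is even (`Rl_parity0` type argument: `σ` preserves `{a,...,b}`), so `i = b` does not occur; `i = a`: new marked arc `(σ (a+1), b)` or death; `i + 1 = b`: the marked arc becomes `(a, σ (b-1))`,
`σ (b-1) < b`; otherwise the arc of `a` is unchanged: `i` and `i+1` are both different from `a`, `b`). The mark itself: before the letter `i` (odd) it is `≥ i` and odd; if it is `i` it moves to `σ (i+1) > i+1` (or dies), if it is larger than `i` it is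
`≥ i + 2` (odd) and stays; so after the letter `i` it is `≥ i + 2`. After all letters it is `2n+1`, whose partner is `2n+2` (`actW_odd`), contradicting that the right end of the marked arc is `< 2n+2`. Then `run_vec`, `proj0`: `ip n (v0 n) (svec ..) * v0 n D = 0`.
-/

set_option autoImplicit false

noncomputable section

namespace QS

open Finset

private theorem send_actW_append (l : List ℕ) (i : ℕ) : ∀ σ : ℕ → ℕ,
    actW (l ++ [i]) σ = act i (actW l σ) := by
  induction l with
  | nil => intro σ; rfl
  | cons j l ih => intro σ; exact ih (act j σ)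

private theorem send_run_append (l : List ℕ) (i : ℕ) : ∀ S : Option ((ℕ → ℕ) × ℕ),
    run (l ++ [i]) S = stp i (run l S) := by
  induction l with
  | nil => intro S; rfl
  | cons j l ih => intro S; exact ih (stp j S)

private theorem send_oddL_succ (m : ℕ) : oddL (m + 1) = oddL m ++ [2 * m + 1] := by
  unfold oddL
  rw [List.range_succ, List.map_append]
  rfl

private theorem send_oddL_mem {n i : ℕ} (h : i ∈ oddL n) : 1 ≤ i ∧ i ≤ 2 * n := by
  unfold oddL at h
  rw [List.mem_map] at h
  obtain ⟨k, hk, rfl⟩ := h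
  rw [List.mem_range] at hk
  omega

private theorem send_odd_aux {n : ℕ} {σ : ℕ → ℕ} (h : IsNC (2 * n + 2) σ) : ∀ m ≤ n,
    IsNC (2 * n + 2) (actW (oddL m) σ) ∧ ∀ k < m, actW (oddL m) σ (2 * k + 1) = 2 * k + 2 ∧
      actW (oddL m) σ (2 * k + 2) = 2 * k + 1 := by
  intro m
  induction m with
  | zero =>
    intro _
    exact ⟨h, fun k hk => absurd hk (Nat.not_lt_zero k)⟩
  | succ m ih =>
    intro hm
    obtain ⟨h1, h2⟩ := ih (by omega)
    rw [send_oddL_succ, send_actW_append]
    set τ := actW (oddL m) σ with hτ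
    refine ⟨act_nc h1 (by omega) (by omega), ?_⟩
    intro k hk
    rcases Nat.lt_or_ge k m with hkm | hkm
    · obtain ⟨e1, e2⟩ := h2 k hkm
      have hi := h1.1 (2 * m + 1) (by omega) (by omega)
      have hi' := h1.1 (2 * m + 1 + 1) (by omega) (by omega)
      have key : ∀ x z, (x = 2 * k + 1 ∨ x = 2 * k + 2) → (z = 2 * k + 1 ∨ z = 2 * k + 2) →
          τ x = z → act (2 * m + 1) τ x = z := by
        intro x z hx hz hxz
        have c1 : x ≠ τ (2 * m + 1) := by
          intro hc
          rw [hc, hi.2.2.2] at hxz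
          omega
        have c2 : x ≠ τ (2 * m + 1 + 1) := by
          intro hc
          rw [hc, hi'.2.2.2] at hxz
          omega
        have c3 : x ≠ 2 * m + 1 := by omega
        have c4 : x ≠ 2 * m + 1 + 1 := by omega
        unfold act
        by_cases hc : τ (2 * m + 1) = 2 * m + 1 + 1
        · rw [if_pos hc, hxz]
        · rw [if_neg hc, if_neg c3, if_neg c4, if_neg c1, if_neg c2, hxz]
      exact ⟨key _ _ (Or.inl rfl) (Or.inr rfl) e1, key _ _ (Or.inr rfl) (Or.inl rfl) e2⟩
    · have hkm' : k = m := by omega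
      subst hkm'
      have hi := h1.1 (2 * k + 1) (by omega) (by omega)
      unfold act
      by_cases hc : τ (2 * k + 1) = 2 * k + 1 + 1
      · rw [if_pos hc, if_pos hc]
        refine ⟨hc, ?_⟩
        have h3 := hi.2.2.2
        rw [hc] at h3
        exact h3
      · rw [if_neg hc, if_neg hc]
        simp

private theorem send_Th_congr {P : ℕ} {σ τ : ℕ → ℕ} (h : ∀ x, 1 ≤ x → x ≤ P → σ x = τ x)
    (D : Finset ℕ) : Th P σ D = Th P τ D := by
  classical
  unfold Th
  have h1 : (∀ x ∈ Icc 1 P, (σ x ∈ D ↔ x ∉ D)) ↔ (∀ x ∈ Icc 1 P, (τ x ∈ D ↔ x ∉ D)) := by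
    constructor
    · intro h2 x hx
      rw [← h x (mem_Icc.1 hx).1 (mem_Icc.1 hx).2]
      exact h2 x hx
    · intro h2 x hx
      rw [h x (mem_Icc.1 hx).1 (mem_Icc.1 hx).2]
      exact h2 x hx
  have h2 : (Icc 1 P).filter (fun x => x < σ x) = (Icc 1 P).filter (fun x => x < τ x) := by
    refine Finset.filter_congr fun x hx => ?_
    rw [h x (mem_Icc.1 hx).1 (mem_Icc.1 hx).2]
  by_cases hc : ∀ x ∈ Icc 1 P, (σ x ∈ D ↔ x ∉ D)
  · rw [if_pos hc, if_pos (h1.1 hc), h2]
  · rw [if_neg hc, if_neg (fun h3 => hc (h1.2 h3))]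

private theorem send_run {n a : ℕ} {σ : ℕ → ℕ} (h : IsNC (2 * n + 2) σ)
    (ha : Exp (2 * n + 2) σ a) (h2 : σ a < 2 * n + 2) : ∀ m ≤ n,
    run (oddL m) (some (σ, a)) = none ∨ ∃ (τ : ℕ → ℕ) (b : ℕ),
      run (oddL m) (some (σ, a)) = some (τ, b) ∧ τ = actW (oddL m) σ ∧ IsNC (2 * n + 2) τ ∧
      Exp (2 * n + 2) τ b ∧ 2 * m + 1 ≤ b ∧ τ b < 2 * n + 2 := by
  intro m
  induction m with
  | zero =>
    intro _
    exact Or.inr ⟨σ, a, rfl, rfl, h, ha, by have := ha.1; omega, h2⟩
  | succ m ih =>
    intro hm
    rw [send_oddL_succ, send_run_append, send_actW_append]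
    rcases ih (by omega) with h0 | ⟨τ, b, h3, h4, h5, h6, h7, h8⟩
    · left
      rw [h0]
      rfl
    · rw [h3]
      by_cases hc : 2 * m + 1 = b ∧ τ b = b + 1
      · left
        show (if 2 * m + 1 = b ∧ τ b = b + 1 then none else _) = _
        rw [if_pos hc]
      · right
        have hstp : stp (2 * m + 1) (some (τ, b)) =
            some (act (2 * m + 1) τ, mk (2 * m + 1) τ b) := by
          show (if 2 * m + 1 = b ∧ τ b = b + 1 then none else _) = _
          rw [if_neg hc]
        refine ⟨_, _, hstp, by rw [h4], act_nc h5 (by omega) (by omega),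
          exp_stp h5 (by omega) (by omega) h6 hc, ?_⟩
        have hodd := exp_odd h5 h6
        have hb1 := h6.1
        have hb2 := h6.2.1
        have hb3 := h6.2.2.2
        by_cases hb : 2 * m + 1 = b
        · subst hb
          have hne : τ (2 * m + 1) ≠ 2 * m + 1 + 1 := fun h9 => hc ⟨rfl, h9⟩
          have hi := h5.1 (2 * m + 1) (by omega) (by omega)
          have hi' := h5.1 (2 * m + 1 + 1) (by omega) (by omega)
          have hnc := h5.2 (2 * m + 1) (2 * m + 1 + 1) (by omega) (by omega) (by omega) (by omega)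
          have hmk : mk (2 * m + 1) τ (2 * m + 1) = τ (2 * m + 1 + 1) := by
            unfold mk
            rw [if_neg (by omega), if_pos rfl]
          rw [hmk]
          have hne2 : τ (2 * m + 1 + 1) ≠ τ (2 * m + 1) := by omega
          refine ⟨by omega, ?_⟩
          have hact : act (2 * m + 1) τ (τ (2 * m + 1 + 1)) = τ (2 * m + 1) := by
            unfold act
            rw [if_neg hne, if_neg (by omega), if_neg (by omega), if_neg hne2, if_pos rfl]
          rw [hact]
          exact h8
        · have hmk : mk (2 * m + 1) τ b = b := by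
            unfold mk
            rw [if_neg (by omega), if_neg hb]
          rw [hmk]
          refine ⟨by omega, ?_⟩
          have hi := h5.1 (2 * m + 1) (by omega) (by omega)
          have hi' := h5.1 (2 * m + 1 + 1) (by omega) (by omega)
          have hact : act (2 * m + 1) τ b = τ b := by
            unfold act
            by_cases hne : τ (2 * m + 1) = 2 * m + 1 + 1
            · rw [if_pos hne]
            · have c1 : b ≠ τ (2 * m + 1) := by
                intro hc1
                have h9 := hi.2.2.2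
                rw [← hc1] at h9
                omega
              have c2 : b ≠ τ (2 * m + 1 + 1) := by
                intro hc1
                have h9 := hi'.2.2.2
                rw [← hc1] at h9
                omega
              rw [if_neg hne, if_neg (by omega), if_neg (by omega), if_neg c1, if_neg c2]
          rw [hact]
          exact h8

/-- after the word `1,3,...,2n-1` all arcs are `(1,2),(3,4),...` -/
theorem actW_odd {n : ℕ} {σ : ℕ → ℕ} (h : IsNC (2 * n + 2) σ) {x : ℕ} (h1 : 1 ≤ x) (h2 : x ≤ 2 * n + 2) :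
    actW (oddL n) σ x = sg0 x := by
  obtain ⟨hτ, hk⟩ := send_odd_aux h n le_rfl
  set τ := actW (oddL n) σ with hdef
  have hsmall : ∀ y, 1 ≤ y → y ≤ 2 * n → τ y ≤ 2 * n := by
    intro y hy1 hy2
    rcases Nat.even_or_odd' y with ⟨j, hj | hj⟩
    · have h3 := (hk (j - 1) (by omega)).2
      have e : 2 * (j - 1) + 2 = y := by omega
      rw [e] at h3
      omega
    · have h3 := (hk j (by omega)).1
      rw [← hj] at h3
      omega
  have hlast : τ (2 * n + 1) = 2 * n + 2 := by
    have h3 := hτ.1 (2 * n + 1) (by omega) (by omega)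
    by_contra hne
    have h4 := hsmall (τ (2 * n + 1)) h3.1 (by omega)
    rw [h3.2.2.2] at h4
    omega
  have hlast' : τ (2 * n + 2) = 2 * n + 1 := by
    have h3 := hτ.1 (2 * n + 1) (by omega) (by omega)
    rw [hlast] at h3
    exact h3.2.2.2
  unfold sg0
  rcases Nat.even_or_odd' x with ⟨j, hj | hj⟩
  · rw [if_neg (by omega)]
    rcases Nat.lt_or_ge n j with hjn | hjn
    · have e : x = 2 * n + 2 := by omega
      rw [e, hlast']
      rfl
    · have h3 := (hk (j - 1) (by omega)).2
      have e : 2 * (j - 1) + 2 = x := by omega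
      rw [e] at h3
      omega
  · rw [if_pos (by omega)]
    rcases Nat.lt_or_ge j n with hjn | hjn
    · have h3 := (hk j hjn).1
      rw [← hj] at h3
      omega
    · have e : x = 2 * n + 1 := by omega
      rw [e, hlast]

theorem ip_vec {n : ℕ} {σ : ℕ → ℕ} (h : IsNC (2 * n + 2) σ) : ip n (v0 n) (vec n σ) = 1 := by
  obtain ⟨D, hD, hne⟩ := v0_ne n
  have h1 := proj0 n (vec n σ) hD
  rw [(opW_vec h (oddL n) fun i hi => send_oddL_mem hi).1] at h1
  have h2 : vec n (actW (oddL n) σ) D = v0 n D := by
    unfold v0 vec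
    rw [send_Th_congr fun x hx1 hx2 => actW_odd h hx1 hx2]
  rw [h2] at h1
  have h3 : (ip n (v0 n) (vec n σ) - 1) * v0 n D = 0 := by
    rw [sub_mul, one_mul, ← h1, sub_self]
  rcases mul_eq_zero.1 h3 with h4 | h4
  · exact sub_eq_zero.1 h4
  · exact absurd h4 hne

theorem run_odd {n a : ℕ} {σ : ℕ → ℕ} (h : IsNC (2 * n + 2) σ) (ha : Exp (2 * n + 2) σ a) (h2 : σ a < 2 * n + 2) :
    run (oddL n) (some (σ, a)) = none := by
  rcases send_run h ha h2 n le_rfl with h0 | ⟨τ, b, _, h4, _, h6, h7, h8⟩
  · exact h0
  · exfalso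
    have hb2 := h6.2.1
    have e : b = 2 * n + 1 := by omega
    rw [e, h4, actW_odd h (by omega) (by omega)] at h8
    unfold sg0 at h8
    rw [if_pos (by omega)] at h8
    omega

/-- the final pairing sees whether the marked strand is matched with the last point -/
theorem ip_mark {n a : ℕ} {σ : ℕ → ℕ} (h : IsNC (2 * n + 2) σ) (ha : Exp (2 * n + 2) σ a) :
    ip n (v0 n) (svec n (some (σ, a))) = if σ a = 2 * n + 2 then 1 else 0 := by
  by_cases hc : σ a = 2 * n + 2
  · rw [if_pos hc]
    have h1 : svec n (some (σ, a)) = vec n σ := by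
      funext D
      show (if a ∈ D then (s ^ 2)⁻¹ * vec n σ D else vec n σ D) = vec n σ D
      by_cases hD : a ∈ D
      · rw [if_pos hD]
        have h2 : vec n σ D = 0 := by
          unfold vec Th
          rw [if_neg, mul_zero]
          intro h3
          have h4 := h3 a (mem_Icc.2 ⟨ha.1, ha.2.1.le⟩)
          rw [hc] at h4
          exact h4.1 (mem_insert_self _ _) (mem_insert_of_mem hD)
        rw [h2, mul_zero]
      · rw [if_neg hD]
    rw [h1, ip_vec h]
  · rw [if_neg hc]
    have h1 := h.1 a ha.1 ha.2.1.le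
    have h2 : σ a < 2 * n + 2 := lt_of_le_of_ne h1.2.1 hc
    obtain ⟨D, hD, hne⟩ := v0_ne n
    have h3 := proj0 n (svec n (some (σ, a))) hD
    rw [(run_vec (oddL n) (fun i hi => send_oddL_mem hi) (S := some (σ, a)) ⟨h, ha⟩).1,
      run_odd h ha h2] at h3
    have h4 : ip n (v0 n) (svec n (some (σ, a))) * v0 n D = 0 := h3.symm
    rcases mul_eq_zero.1 h4 with h5 | h5
    · exact h5
    · exact absurd h5 hne

end QS
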