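import Pool.Agent.Lib.MP_216314_pr.S.SDefs

/-!
# Elementary facts

All statements are short computations with `s ^ 4 - s ^ 2 + 1 = 0`.
`Om a`: the other diagonal operator. `Ox (i+1)` and `Om i` agree under `ee i`.
-/

set_option autoImplicit false

noncomputable section

namespace QS

open Finset

/-- the other diagonal operator on site `a` -/
def Om (a : ℕ) (v : Vc) : Vc := fun D => if a ∈ D then v D else (s ^ 2)⁻¹ * v D

private theorem sbas_sq : s ^ 2 = ⟨1 / 2, Real.sqrt 3 / 2⟩ := by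
  have h3 : Real.sqrt 3 * Real.sqrt 3 = 3 := Real.mul_self_sqrt (by norm_num)
  rw [pow_two]
  apply Complex.ext
  · rw [Complex.mul_re]
    simp only [s]
    linarith
  · rw [Complex.mul_im]
    simp only [s]
    ring

theorem s_four : s ^ 4 - s ^ 2 + 1 = 0 := by
  have h3 : Real.sqrt 3 * Real.sqrt 3 = 3 := Real.mul_self_sqrt (by norm_num)
  have h : s ^ 4 = s ^ 2 * s ^ 2 := by ring
  rw [h, sbas_sq]
  apply Complex.ext
  · rw [Complex.add_re, Complex.sub_re, Complex.mul_re, Complex.one_re, Complex.zero_re]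
    simp only
    linarith
  · rw [Complex.add_im, Complex.sub_im, Complex.mul_im, Complex.one_im, Complex.zero_im]
    simp only
    ring

theorem s_ne : s ≠ 0 := by
  intro h
  have h1 := s_four
  rw [h] at h1
  norm_num at h1

theorem s_norm : ‖s‖ = 1 := by
  have h3 : Real.sqrt 3 * Real.sqrt 3 = 3 := Real.mul_self_sqrt (by norm_num)
  have h : Complex.normSq s = 1 := by
    rw [Complex.normSq_apply]
    simp only [s]
    linarith
  rw [Complex.norm_def, h, Real.sqrt_one]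

theorem s_sum : s ^ 2 + (s ^ 2)⁻¹ = 1 := by
  have h := s_ne
  have h4 := s_four
  field_simp
  linear_combination h4

theorem s_sum' : s ^ 2 + (s ^ 2)⁻¹ * (s ^ 2)⁻¹ = 0 := by
  have h := s_ne
  have h4 := s_four
  field_simp
  linear_combination (s ^ 2 + 1) * h4

theorem mem_swD {i x : ℕ} {D : Finset ℕ} : x ∈ swD i D ↔ Equiv.swap i (i + 1) x ∈ D := by
  rw [swD, mem_map_equiv, Equiv.symm_swap]

theorem mem_swD_left {i : ℕ} {D : Finset ℕ} : i ∈ swD i D ↔ i + 1 ∈ D := by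
  rw [mem_swD, Equiv.swap_apply_left]

theorem mem_swD_right {i : ℕ} {D : Finset ℕ} : i + 1 ∈ swD i D ↔ i ∈ D := by
  rw [mem_swD, Equiv.swap_apply_right]

theorem mem_swD_ne {i x : ℕ} {D : Finset ℕ} (h : x ≠ i) (h' : x ≠ i + 1) : x ∈ swD i D ↔ x ∈ D := by
  rw [mem_swD, Equiv.swap_apply_of_ne_of_ne h h']

theorem swD_swD (i : ℕ) (D : Finset ℕ) : swD i (swD i D) = D := by
  ext x
  rw [mem_swD, mem_swD, Equiv.swap_apply_self]

theorem swD_insert {i x : ℕ} {D : Finset ℕ} (h : x ≠ i) (h' : x ≠ i + 1) :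
    swD i (insert x D) = insert x (swD i D) := by
  rw [swD, map_insert, swD]
  congr 1
  exact Equiv.swap_apply_of_ne_of_ne h h'

theorem swD_sec {n i : ℕ} (h1 : 1 ≤ i) (h2 : i ≤ 2 * n) {D : Finset ℕ} (h : D ∈ sec n) : swD i D ∈ sec n := by
  rw [sec, mem_powersetCard] at h ⊢
  refine ⟨?_, ?_⟩
  · intro x hx
    rw [mem_Icc]
    by_cases hx1 : x = i
    · omega
    by_cases hx2 : x = i + 1
    · omega
    rw [mem_swD_ne hx1 hx2] at hx
    exact mem_Icc.1 (h.1 hx)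
  · rw [swD, card_map, h.2]

theorem ee_add (i : ℕ) (v w : Vc) : ee i (fun D => v D + w D) = fun D => ee i v D + ee i w D := by
  funext D
  simp only [ee]
  by_cases h : (i ∈ D ↔ i + 1 ∈ D)
  · rw [if_pos h, if_pos h, if_pos h, add_zero]
  · rw [if_neg h, if_neg h, if_neg h]
    ring

theorem ee_smul (i : ℕ) (c : ℂ) (v : Vc) : ee i (fun D => c * v D) = fun D => c * ee i v D := by
  funext D
  simp only [ee]
  by_cases h : (i ∈ D ↔ i + 1 ∈ D)
  · rw [if_pos h, if_pos h, mul_zero]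
  · rw [if_neg h, if_neg h]
    ring

theorem Ox_add (a : ℕ) (v w : Vc) : Ox a (fun D => v D + w D) = fun D => Ox a v D + Ox a w D := by
  funext D
  simp only [Ox]
  by_cases h : a ∈ D
  · rw [if_pos h, if_pos h, if_pos h]
    ring
  · rw [if_neg h, if_neg h, if_neg h]

theorem Ox_smul (a : ℕ) (c : ℂ) (v : Vc) : Ox a (fun D => c * v D) = fun D => c * Ox a v D := by
  funext D
  simp only [Ox]
  by_cases h : a ∈ D
  · rw [if_pos h, if_pos h]
    ring
  · rw [if_neg h, if_neg h]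

theorem ip_symm {n i : ℕ} (h1 : 1 ≤ i) (h2 : i ≤ 2 * n) (v w : Vc) : ip n v (ee i w) = ip n (ee i v) w := by
  have hre : ∀ f : Finset ℕ → ℂ, ∑ D ∈ sec n, f D = ∑ D ∈ sec n, f (swD i D) := by
    intro f
    apply sum_nbij' (swD i) (swD i)
    · intro D hD
      exact swD_sec h1 h2 hD
    · intro D hD
      exact swD_sec h1 h2 hD
    · intro D _
      exact swD_swD i D
    · intro D _
      exact swD_swD i D
    · intro D _
      rw [swD_swD]
  have hA : ∀ v w : Vc, ip n v (ee i w) =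
      ∑ D ∈ sec n, (if (i ∈ D ↔ i + 1 ∈ D) then 0 else
        (if i ∈ D then (s ^ 2)⁻¹ else s ^ 2) * (v D * w D)) +
      ∑ D ∈ sec n, (if (i ∈ D ↔ i + 1 ∈ D) then 0 else v D * w (swD i D)) := by
    intro v w
    rw [ip, ← sum_add_distrib]
    apply sum_congr rfl
    intro D _
    simp only [ee]
    by_cases h : (i ∈ D ↔ i + 1 ∈ D)
    · rw [if_pos h, if_pos h, if_pos h, mul_zero, add_zero]
    · rw [if_neg h, if_neg h, if_neg h]
      ring
  have hB : ip n (ee i v) w = ip n w (ee i v) := by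
    rw [ip, ip]
    apply sum_congr rfl
    intro D _
    ring
  rw [hB, hA, hA]
  congr 1
  · apply sum_congr rfl
    intro D _
    rw [mul_comm (v D)]
  · rw [hre]
    apply sum_congr rfl
    intro D _
    by_cases h : (i ∈ D ↔ i + 1 ∈ D)
    · rw [if_pos h, if_pos]
      rw [mem_swD_left, mem_swD_right]
      exact h.symm
    · rw [if_neg h, if_neg]
      · rw [swD_swD, mul_comm]
      · rw [mem_swD_left, mem_swD_right]
        exact fun h' => h h'.symm

theorem ip_Ox (n a : ℕ) (v w : Vc) : ip n v (Ox a w) = ip n (Ox a v) w := by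
  rw [ip, ip]
  apply sum_congr rfl
  intro D _
  simp only [Ox]
  by_cases h : a ∈ D
  · rw [if_pos h, if_pos h]
    ring
  · rw [if_neg h, if_neg h]

private theorem sbas_cases (i : ℕ) (D : Finset ℕ) (h : ¬ (i ∈ D ↔ i + 1 ∈ D)) :
    (i ∈ D ∧ i + 1 ∉ D) ∨ (i ∉ D ∧ i + 1 ∈ D) := by
  by_cases h1 : i ∈ D
  · left
    exact ⟨h1, fun h2 => h ⟨fun _ => h2, fun _ => h1⟩⟩
  · right
    refine ⟨h1, ?_⟩
    by_contra h2
    exact h ⟨fun h3 => absurd h3 h1, fun h3 => absurd h3 h2⟩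

private theorem sbas_ee_zero (i : ℕ) (v : Vc) (D : Finset ℕ) (h : i ∈ D ↔ i + 1 ∈ D) :
    ee i v D = 0 := by
  rw [ee, if_pos h]

private theorem sbas_ee_one (i : ℕ) (v : Vc) (D : Finset ℕ) (h1 : i ∈ D) (h2 : i + 1 ∉ D) :
    ee i v D = (s ^ 2)⁻¹ * v D + v (swD i D) := by
  rw [ee, if_neg (fun h => h2 (h.1 h1)), if_pos h1]

private theorem sbas_ee_two (i : ℕ) (v : Vc) (D : Finset ℕ) (h1 : i ∉ D) (h2 : i + 1 ∈ D) :
    ee i v D = s ^ 2 * v D + v (swD i D) := by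
  rw [ee, if_neg (fun h => h1 (h.2 h2)), if_neg h1]

private theorem sbas_sw_one (i : ℕ) (D : Finset ℕ) (h1 : i ∈ D) (h2 : i + 1 ∉ D) :
    i ∉ swD i D ∧ i + 1 ∈ swD i D := by
  rw [mem_swD_left, mem_swD_right]
  exact ⟨h2, h1⟩

private theorem sbas_sw_two (i : ℕ) (D : Finset ℕ) (h1 : i ∉ D) (h2 : i + 1 ∈ D) :
    i ∈ swD i D ∧ i + 1 ∉ swD i D := by
  rw [mem_swD_left, mem_swD_right]
  exact ⟨h2, h1⟩

private theorem sbas_inv : (s ^ 2)⁻¹ * (s ^ 2)⁻¹ = - s ^ 2 := by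
  linear_combination s_sum'

private theorem sbas_inv' : (s ^ 2)⁻¹ = 1 - s ^ 2 := by
  linear_combination s_sum

theorem ee_idem (i : ℕ) (v : Vc) : ee i (ee i v) = ee i v := by
  funext D
  have h4 := s_four
  by_cases h : (i ∈ D ↔ i + 1 ∈ D)
  · rw [sbas_ee_zero i _ D h, sbas_ee_zero i _ D h]
  · rcases sbas_cases i D h with ⟨h1, h2⟩ | ⟨h1, h2⟩
    · obtain ⟨h3, h5⟩ := sbas_sw_one i D h1 h2
      rw [sbas_ee_one i _ D h1 h2, sbas_ee_one i _ D h1 h2, sbas_ee_two i _ _ h3 h5, swD_swD,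
        sbas_inv']
      linear_combination v D * h4
    · obtain ⟨h3, h5⟩ := sbas_sw_two i D h1 h2
      rw [sbas_ee_two i _ D h1 h2, sbas_ee_two i _ D h1 h2, sbas_ee_one i _ _ h3 h5, swD_swD,
        sbas_inv']
      linear_combination v D * h4

theorem ee_Ox_far {i a : ℕ} (h : a ≠ i) (h' : a ≠ i + 1) (v : Vc) : ee i (Ox a v) = Ox a (ee i v) := by
  funext D
  have hm : a ∈ swD i D ↔ a ∈ D := mem_swD_ne h h'
  simp only [ee, Ox, hm]
  by_cases h1 : (i ∈ D ↔ i + 1 ∈ D)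
  · rw [if_pos h1, if_pos h1]
    simp
  · rw [if_neg h1, if_neg h1]
    by_cases h2 : a ∈ D
    · rw [if_pos h2, if_pos h2, if_pos h2]
      ring
    · rw [if_neg h2, if_neg h2, if_neg h2]

theorem ee_Ox_right (i : ℕ) (v : Vc) : ee i (Ox (i + 1) v) = ee i (Om i v) := by
  funext D
  by_cases h : (i ∈ D ↔ i + 1 ∈ D)
  · rw [sbas_ee_zero i _ D h, sbas_ee_zero i _ D h]
  · rcases sbas_cases i D h with ⟨h1, h2⟩ | ⟨h1, h2⟩
    · obtain ⟨h3, h5⟩ := sbas_sw_one i D h1 h2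
      rw [sbas_ee_one i _ D h1 h2, sbas_ee_one i _ D h1 h2]
      simp only [Ox, Om]
      rw [if_neg h2, if_pos h5, if_pos h1, if_neg h3]
    · obtain ⟨h3, h5⟩ := sbas_sw_two i D h1 h2
      rw [sbas_ee_two i _ D h1 h2, sbas_ee_two i _ D h1 h2]
      simp only [Ox, Om]
      rw [if_pos h2, if_neg h5, if_neg h1, if_pos h3]

theorem ee_Ox_left (i : ℕ) (v : Vc) : ee i (Ox i v) = ee i (Om (i + 1) v) := by
  funext D
  by_cases h : (i ∈ D ↔ i + 1 ∈ D)
  · rw [sbas_ee_zero i _ D h, sbas_ee_zero i _ D h]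
  · rcases sbas_cases i D h with ⟨h1, h2⟩ | ⟨h1, h2⟩
    · obtain ⟨h3, h5⟩ := sbas_sw_one i D h1 h2
      rw [sbas_ee_one i _ D h1 h2, sbas_ee_one i _ D h1 h2]
      simp only [Ox, Om]
      rw [if_pos h1, if_neg h3, if_neg h2, if_pos h5]
    · obtain ⟨h3, h5⟩ := sbas_sw_two i D h1 h2
      rw [sbas_ee_two i _ D h1 h2, sbas_ee_two i _ D h1 h2]
      simp only [Ox, Om]
      rw [if_neg h1, if_pos h3, if_pos h2, if_neg h5]

theorem ee_Ox_ee (i : ℕ) (v : Vc) : ee i (Ox i (ee i v)) = fun _ => 0 := by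
  funext D
  have h4 := s_four
  by_cases h : (i ∈ D ↔ i + 1 ∈ D)
  · rw [sbas_ee_zero i _ D h]
  · rcases sbas_cases i D h with ⟨h1, h2⟩ | ⟨h1, h2⟩
    · obtain ⟨h3, h5⟩ := sbas_sw_one i D h1 h2
      rw [sbas_ee_one i _ D h1 h2]
      simp only [Ox]
      rw [if_pos h1, if_neg h3, sbas_ee_one i _ D h1 h2, sbas_ee_two i _ _ h3 h5, swD_swD,
        ← mul_assoc, sbas_inv, sbas_inv']
      linear_combination v D * h4
    · obtain ⟨h3, h5⟩ := sbas_sw_two i D h1 h2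
      rw [sbas_ee_two i _ D h1 h2]
      simp only [Ox]
      rw [if_neg h1, if_pos h3, sbas_ee_two i _ D h1 h2, sbas_ee_one i _ _ h3 h5, swD_swD,
        mul_add (s ^ 2)⁻¹, ← mul_assoc (s ^ 2)⁻¹ (s ^ 2)⁻¹, sbas_inv, sbas_inv']
      linear_combination v D * h4

end QS
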