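import Pool.Agent.Lib.MP_216314_pr.S.SThA

/-!
# Uniform bound for words

`word_bound`: for every word `w` in the letters `1,...,2n` and every `v`, `‖opW w v D‖ ≤ ∑ D' ∈ sec n, ‖v D'‖` for `D ∈ sec n`.

Proof. Put `L = 2n+1`, `P = 2L`. (1) `opW w` preserves the sector: if `v = 0` on `sec n` then `opW w v = 0` on `sec n` (`swD_sec`), so by linearity
it is enough to bound the matrix entries `opW w (δ_{D'}) D`, `D, D' ∈ sec n`, `δ_{D'} E = if E = D' then 1 else 0`, by one (expand `v` on `sec n`).
(2) Let `σ x = 2L+1-x` (noncrossing) and, for `D' ∈ sec n`, `E' = (Icc 1 L \ D').image (fun i => 2L+1-i)`, a subset of `Icc (L+1) (2L)`. For `D ⊆ Icc 1 L`: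
`Th (2L) σ (D ∪ E') = if D = D' then c else 0`, `c = ∏ i ∈ Icc 1 L, (if i ∈ D' then s⁻¹ else s)`, `‖c‖ = 1` (`σ` is compatible with `D ∪ E'` iff `i ∈ D ↔ 2L+1-i ∉ E' ↔ i ∈ D'`).
(3) For letters `i < L`: `ee i v (D ∪ E') = ee i (fun D => v (D ∪ E')) D` (membership of `i, i+1` and `swD i (D ∪ E') = swD i D ∪ E'`), so
`opW w (Th (2L) σ) (D ∪ E') = opW w (fun D => Th (2L) σ (D ∪ E')) D`, and the last vector is `c δ_{D'}` on `sec n`.
(4) `opW w (Th (2L) σ) = Th (2L) (actW w σ)` by `Th_act`, `act_nc`, so `‖c‖ ‖opW w δ_{D'} D‖ ≤ 1` by `Th_norm`.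
-/

set_option autoImplicit false

noncomputable section

namespace QS

open Finset

theorem opW_add (w : List ℕ) (v v' : Vc) : opW w (fun D => v D + v' D) = fun D => opW w v D + opW w v' D := by
  induction w generalizing v v' with
  | nil => rfl
  | cons i l ih =>
    show opW l (ee i (fun D => v D + v' D)) = fun D => opW l (ee i v) D + opW l (ee i v') D
    rw [ee_add, ih]

theorem opW_smul (w : List ℕ) (c : ℂ) (v : Vc) : opW w (fun D => c * v D) = fun D => c * opW w v D := by
  induction w generalizing v with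
  | nil => rfl
  | cons i l ih =>
    show opW l (ee i (fun D => c * v D)) = fun D => c * opW l (ee i v) D
    rw [ee_smul, ih]

theorem opW_append (w w' : List ℕ) (v : Vc) : opW (w ++ w') v = opW w' (opW w v) := by
  induction w generalizing v with
  | nil => rfl
  | cons i l ih => exact ih (ee i v)

theorem opW_sec {n : ℕ} (w : List ℕ) (hw : ∀ i ∈ w, 1 ≤ i ∧ i ≤ 2 * n) {v v' : Vc} (h : ∀ D ∈ sec n, v D = v' D) :
    ∀ D ∈ sec n, opW w v D = opW w v' D := by
  induction w generalizing v v' with
  | nil => exact h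
  | cons i l ih =>
    have hi := hw i (List.mem_cons_self)
    refine ih (fun j hj => hw j (List.mem_cons_of_mem _ hj)) (v := ee i v) (v' := ee i v') ?_
    intro D hD
    unfold ee
    rw [h D hD, h _ (swD_sec hi.1 hi.2 hD)]

private theorem sbound_zero (w : List ℕ) : opW w (fun _ => 0) = fun _ => 0 := by
  have h := opW_smul w 0 (fun _ => 0)
  simp only [zero_mul] at h
  exact h

private theorem sbound_sum {ι : Type} (w : List ℕ) (t : Finset ι) (f : ι → Vc) :
    opW w (fun D => ∑ x ∈ t, f x D) = fun D => ∑ x ∈ t, opW w (f x) D := by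
  classical
  induction t using Finset.induction_on with
  | empty =>
    simp only [Finset.sum_empty]
    exact sbound_zero w
  | insert a t ha ih =>
    simp only [Finset.sum_insert ha]
    rw [opW_add, ih]

private theorem sbound_th {P : ℕ} {σ : ℕ → ℕ} (h : IsNC P σ) (w : List ℕ)
    (hw : ∀ i ∈ w, 1 ≤ i ∧ i < P) : opW w (Th P σ) = Th P (actW w σ) := by
  induction w generalizing σ with
  | nil => rfl
  | cons i l ih =>
    have hi := hw i (List.mem_cons_self)
    show opW l (ee i (Th P σ)) = Th P (actW l (act i σ))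
    rw [Th_act h hi.1 hi.2]
    exact ih (act_nc h hi.1 hi.2) (fun j hj => hw j (List.mem_cons_of_mem _ hj))

private theorem sbound_union {L : ℕ} (w : List ℕ) (hw : ∀ i ∈ w, i < L) (E : Finset ℕ)
    (hE : ∀ x ∈ E, L < x) (v : Vc) (D : Finset ℕ) :
    opW w v (D ∪ E) = opW w (fun D => v (D ∪ E)) D := by
  induction w generalizing v with
  | nil => rfl
  | cons i l ih =>
    have hi := hw i (List.mem_cons_self)
    show opW l (ee i v) (D ∪ E) = opW l (ee i (fun D => v (D ∪ E))) D
    rw [ih (fun j hj => hw j (List.mem_cons_of_mem _ hj))]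
    have e : (fun D => ee i v (D ∪ E)) = ee i (fun D => v (D ∪ E)) := by
      funext D
      have h1 : (i ∈ D ∪ E) = (i ∈ D) := by
        rw [eq_iff_iff, Finset.mem_union]
        exact ⟨fun h => h.resolve_right (fun h2 => absurd (hE i h2) (by omega)), Or.inl⟩
      have h2 : (i + 1 ∈ D ∪ E) = (i + 1 ∈ D) := by
        rw [eq_iff_iff, Finset.mem_union]
        exact ⟨fun h => h.resolve_right (fun h2 => absurd (hE (i + 1) h2) (by omega)), Or.inl⟩
      have h3 : swD i (D ∪ E) = swD i D ∪ E := by
        ext x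
        rw [mem_swD, Finset.mem_union, Finset.mem_union, mem_swD]
        rcases eq_or_ne x i with hx | hx
        · subst hx
          rw [Equiv.swap_apply_left]
          constructor
          · rintro (h4 | h4)
            · exact Or.inl h4
            · exact absurd (hE _ h4) (by omega)
          · rintro (h4 | h4)
            · exact Or.inl h4
            · exact absurd (hE _ h4) (by omega)
        · rcases eq_or_ne x (i + 1) with hx' | hx'
          · subst hx'
            rw [Equiv.swap_apply_right]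
            constructor
            · rintro (h4 | h4)
              · exact Or.inl h4
              · exact absurd (hE _ h4) (by omega)
            · rintro (h4 | h4)
              · exact Or.inl h4
              · exact absurd (hE _ h4) (by omega)
          · rw [Equiv.swap_apply_of_ne_of_ne hx hx']
      unfold ee
      simp only [h1, h2, h3]
    rw [e]

private theorem sbound_entry {n : ℕ} (w : List ℕ) (hw : ∀ i ∈ w, 1 ≤ i ∧ i ≤ 2 * n)
    {D D' : Finset ℕ} (hD : D ∈ sec n) (hD' : D' ∈ sec n) :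
    ‖opW w (fun E => if E = D' then 1 else 0) D‖ ≤ 1 := by
  set L := 2 * n + 1 with hL
  set σ : ℕ → ℕ := fun x => 2 * L + 1 - x with hσ
  have hnc : IsNC (2 * L) σ := by
    constructor
    · intro x h1 h2
      simp only [hσ]
      omega
    · intro x y h1 h2 h3 h4
      simp only [hσ] at h3 h4 ⊢
      omega
  set E' : Finset ℕ := (Icc 1 L \ D').image (fun i => 2 * L + 1 - i) with hE'
  have hE1 : ∀ x ∈ E', L < x := by
    intro x hx
    rw [hE', Finset.mem_image] at hx
    obtain ⟨i, hi, rfl⟩ := hx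
    rw [Finset.mem_sdiff, Finset.mem_Icc] at hi
    omega
  have hsec : ∀ F ∈ sec n, F ⊆ Icc 1 L := fun F hF => (Finset.mem_powersetCard.mp hF).1
  have hmE : ∀ x, 1 ≤ x → x ≤ L → (2 * L + 1 - x ∈ E' ↔ x ∉ D') := by
    intro x h1 h2
    rw [hE', Finset.mem_image]
    constructor
    · rintro ⟨i, hi, hix⟩
      rw [Finset.mem_sdiff, Finset.mem_Icc] at hi
      have : i = x := by omega
      rw [← this]
      exact hi.2
    · intro h3
      exact ⟨x, by rw [Finset.mem_sdiff, Finset.mem_Icc]; exact ⟨⟨h1, h2⟩, h3⟩, rfl⟩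
  set c : ℂ := ∏ x ∈ Icc 1 L, (if x ∈ D' then s⁻¹ else s) with hc
  have hcn : ‖c‖ = 1 := by
    rw [hc, norm_prod]
    refine Finset.prod_eq_one fun x _ => ?_
    split_ifs
    · rw [norm_inv, s_norm, inv_one]
    · exact s_norm
  have hTh : ∀ F ∈ sec n, Th (2 * L) σ (F ∪ E') = c * (if F = D' then 1 else 0) := by
    intro F hF
    have hF1 := hsec F hF
    have hD1 := hsec D' hD'
    have hmem : ∀ x, 1 ≤ x → x ≤ L → (x ∈ F ∪ E' ↔ x ∈ F) := by
      intro x h1 h2
      rw [Finset.mem_union]
      exact ⟨fun h => h.resolve_right (fun h3 => absurd (hE1 x h3) (by omega)), Or.inl⟩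
    have hmem2 : ∀ x, 1 ≤ x → x ≤ L → (2 * L + 1 - x ∈ F ∪ E' ↔ x ∉ D') := by
      intro x h1 h2
      rw [Finset.mem_union, hmE x h1 h2]
      constructor
      · rintro (h3 | h3)
        · have := Finset.mem_Icc.mp (hF1 h3)
          omega
        · exact h3
      · exact Or.inr
    have hcomp : (∀ x ∈ Icc 1 (2 * L), (σ x ∈ F ∪ E' ↔ x ∉ F ∪ E')) ↔ F = D' := by
      constructor
      · intro h
        ext x
        constructor
        · intro hx
          have h1 := Finset.mem_Icc.mp (hF1 hx)
          have h2 := h x (Finset.mem_Icc.mpr (by omega))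
          have h3 : σ x ∈ F ∪ E' ↔ x ∉ D' := hmem2 x h1.1 h1.2
          rw [h3, hmem x h1.1 h1.2] at h2
          by_contra h4
          exact (h2.mp h4) hx
        · intro hx
          have h1 := Finset.mem_Icc.mp (hD1 hx)
          have h2 := h x (Finset.mem_Icc.mpr (by omega))
          have h3 : σ x ∈ F ∪ E' ↔ x ∉ D' := hmem2 x h1.1 h1.2
          rw [h3, hmem x h1.1 h1.2] at h2
          by_contra h4
          exact (h2.mpr h4) hx
      · rintro rfl x hx
        rw [Finset.mem_Icc] at hx
        by_cases h1 : x ≤ L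
        · have h3 : σ x ∈ F ∪ E' ↔ x ∉ F := hmem2 x hx.1 h1
          rw [h3, hmem x hx.1 h1]
        · have h4 : 1 ≤ 2 * L + 1 - x := by omega
          have h5 : 2 * L + 1 - x ≤ L := by omega
          have h6 := hmem2 (2 * L + 1 - x) h4 h5
          have h7 : 2 * L + 1 - (2 * L + 1 - x) = x := by omega
          rw [h7] at h6
          have h8 : σ x ∈ F ∪ E' ↔ 2 * L + 1 - x ∈ F := hmem (2 * L + 1 - x) h4 h5
          rw [h6, h8, not_not]
    unfold Th
    by_cases hFD : F = D'
    · rw [if_pos (hcomp.mpr hFD), if_pos hFD, mul_one, hc]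
      have hset : (Icc 1 (2 * L)).filter (fun x => x < σ x) = Icc 1 L := by
        ext x
        rw [Finset.mem_filter, Finset.mem_Icc, Finset.mem_Icc]
        simp only [hσ]
        omega
      rw [hset]
      refine Finset.prod_congr rfl fun x hx => ?_
      rw [Finset.mem_Icc] at hx
      have h1 : (x ∈ F ∪ E') = (x ∈ D') := by
        rw [eq_iff_iff, hmem x hx.1 hx.2, hFD]
      simp only [h1]
    · rw [if_neg (fun h => hFD (hcomp.mp h)), if_neg hFD, mul_zero]
  have hw1 : ∀ i ∈ w, i < L := fun i hi => by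
    have := hw i hi
    omega
  have hw2 : ∀ i ∈ w, 1 ≤ i ∧ i < 2 * L := fun i hi => by
    have := hw i hi
    omega
  have e1 : opW w (Th (2 * L) σ) (D ∪ E') = c * opW w (fun E => if E = D' then 1 else 0) D := by
    rw [sbound_union w hw1 E' hE1, opW_sec w hw hTh D hD, opW_smul]
  have e2 : ‖opW w (Th (2 * L) σ) (D ∪ E')‖ ≤ 1 := by
    rw [sbound_th hnc w hw2]
    exact Th_norm _ _ _
  rw [e1, norm_mul, hcn, one_mul] at e2
  exact e2

theorem word_bound {n : ℕ} (w : List ℕ) (hw : ∀ i ∈ w, 1 ≤ i ∧ i ≤ 2 * n) (v : Vc) {D : Finset ℕ} (hD : D ∈ sec n) :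
    ‖opW w v D‖ ≤ ∑ D' ∈ sec n, ‖v D'‖ := by
  have h1 : ∀ E ∈ sec n, v E = ∑ D' ∈ sec n, v D' * (if E = D' then 1 else 0) := by
    intro E hE
    rw [Finset.sum_eq_single E]
    · rw [if_pos rfl, mul_one]
    · intro b _ hb
      rw [if_neg (fun h => hb h.symm), mul_zero]
    · intro h
      exact absurd hE h
  rw [opW_sec w hw h1 D hD, sbound_sum]
  refine (norm_sum_le _ _).trans (Finset.sum_le_sum fun D' hD' => ?_)
  rw [opW_smul, norm_mul]
  have h2 := sbound_entry w hw hD hD'
  calc ‖v D'‖ * ‖opW w (fun E => if E = D' then 1 else 0) D‖ ≤ ‖v D'‖ * 1 :=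
        mul_le_mul_of_nonneg_left h2 (norm_nonneg _)
    _ = ‖v D'‖ := mul_one _

end QS
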