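import Mathlib

/-!
# Spins, words and noncrossing involutions (loop weight one)

`s = exp(i pi/6)`. Vectors are functions `Finset ℕ → ℂ` (a configuration is the set of its down spins).
`ee i`: Temperley-Lieb generator on the sites `i, i+1`. `Ox a`: the diagonal operator on site `a`.
`IsNC P σ`: `σ` is a noncrossing involution without fixed points of `{1,...,P}`. `act i σ`: result of the move `i`.
`Th P σ`: spin vector of `σ`. `Rl σ k l`: the regions `k` and `l` are connected below the cut.
-/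

set_option autoImplicit false

noncomputable section

namespace QS

open Finset

/-- `exp(i pi/6)`, a primitive twelfth root of unity -/
def s : ℂ := ⟨Real.sqrt 3 / 2, 1 / 2⟩

/-- vectors -/
abbrev Vc := Finset ℕ → ℂ

/-- exchange of the memberships of `i` and `i+1` -/
def swD (i : ℕ) (D : Finset ℕ) : Finset ℕ := D.map (Equiv.swap i (i + 1)).toEmbedding

/-- Temperley-Lieb generator -/
def ee (i : ℕ) (v : Vc) : Vc := fun D =>
  if (i ∈ D ↔ i + 1 ∈ D) then 0 else (if i ∈ D then (s ^ 2)⁻¹ else s ^ 2) * v D + v (swD i D)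

/-- diagonal operator on site `a` -/
def Ox (a : ℕ) (v : Vc) : Vc := fun D => if a ∈ D then (s ^ 2)⁻¹ * v D else v D

/-- the sector: `n` downs among the sites `1, ..., 2n+1` -/
def sec (n : ℕ) : Finset (Finset ℕ) := powersetCard n (Icc 1 (2 * n + 1))

/-- bilinear form on the sector -/
def ip (n : ℕ) (v w : Vc) : ℂ := ∑ D ∈ sec n, v D * w D

/-- a word, applied letter by letter (first letter first) -/
def opW : List ℕ → Vc → Vc
  | [], v => v
  | i :: l, v => opW l (ee i v)

/-- random word: every letter is present with probability `1/2` -/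
def opH : List ℕ → Vc → Vc
  | [], v => v
  | i :: l, v => opH l (fun D => (v D + ee i v D) / 2)

/-- noncrossing involution without fixed points of `{1,...,P}` -/
def IsNC (P : ℕ) (σ : ℕ → ℕ) : Prop :=
  (∀ x, 1 ≤ x → x ≤ P → 1 ≤ σ x ∧ σ x ≤ P ∧ σ x ≠ x ∧ σ (σ x) = x) ∧
  (∀ x y, 1 ≤ x → x < y → y < σ x → σ x ≤ P → x < σ y ∧ σ y < σ x)

/-- the move `i` -/
def act (i : ℕ) (σ : ℕ → ℕ) : ℕ → ℕ := fun x =>
  if σ i = i + 1 then σ x
  else if x = i then i + 1
  else if x = i + 1 then i
  else if x = σ i then σ (i + 1)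
  else if x = σ (i + 1) then σ i
  else σ x

open Classical in
/-- spin vector of a noncrossing involution of `{1,...,P}` -/
def Th (P : ℕ) (σ : ℕ → ℕ) : Vc := fun D =>
  if (∀ x ∈ Icc 1 P, (σ x ∈ D ↔ x ∉ D)) then
    ∏ x ∈ (Icc 1 P).filter (fun x => x < σ x), (if x ∈ D then s⁻¹ else s)
  else 0

/-- state vector on the sites `1, ..., 2n+1` of an involution of `{1,...,2n+2}`; the last spin is down -/
def vec (n : ℕ) (σ : ℕ → ℕ) : Vc := fun D => s⁻¹ * Th (2 * n + 2) σ (insert (2 * n + 2) D)

/-- the involution with arcs `(1,2),(3,4),...` -/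
def sg0 : ℕ → ℕ := fun x => if x % 2 = 1 then x + 1 else x - 1

/-- boundary vector -/
def v0 (n : ℕ) : Vc := vec n sg0

/-- the letters `1,3,...,2n-1` -/
def oddL (n : ℕ) : List ℕ := (List.range n).map (fun k => 2 * k + 1)

/-- exposed left end: everything to the left of `a` is matched there, and `a` is matched to the right -/
def Exp (P : ℕ) (σ : ℕ → ℕ) (a : ℕ) : Prop :=
  1 ≤ a ∧ a < P ∧ (∀ x, 1 ≤ x → x < a → σ x < a) ∧ a < σ a

/-- the new position of the mark -/
def mk (i : ℕ) (σ : ℕ → ℕ) (a : ℕ) : ℕ :=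
  if i + 1 = a then σ i else if i = a then σ (a + 1) else a

open Classical in
/-- marked states, `none` = the mark died -/
def stp (i : ℕ) : Option ((ℕ → ℕ) × ℕ) → Option ((ℕ → ℕ) × ℕ)
  | none => none
  | some (σ, a) => if i = a ∧ σ a = a + 1 then none else some (act i σ, mk i σ a)

/-- marked state after a word -/
def run : List ℕ → Option ((ℕ → ℕ) × ℕ) → Option ((ℕ → ℕ) × ℕ)
  | [], S => S
  | i :: l, S => run l (stp i S)

/-- involution after a word -/
def actW : List ℕ → (ℕ → ℕ) → (ℕ → ℕ)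
  | [], σ => σ
  | i :: l, σ => actW l (act i σ)

/-- the regions `k ≤ l` are connected below the cut -/
def Rl0 (σ : ℕ → ℕ) (k l : ℕ) : Prop := k ≤ l ∧ ∀ x, k < x → x ≤ l → k < σ x ∧ σ x ≤ l

/-- the regions `k` and `l` are connected below the cut -/
def Rl (σ : ℕ → ℕ) (k l : ℕ) : Prop := Rl0 σ k l ∨ Rl0 σ l k

end QS
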