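import Pool.Agent.Lib.MP_216314_pr.S.SNC

/-!
# Exposed left ends

`exp_odd`: an exposed left end `a` is odd: `σ` is a fixed point free involution of `{1,...,a-1}`, so `a - 1` is even.
(For instance `Finset.sum_involution` in `ZMod 2` for the constant function one, or `Finset.card_involution` type lemmas.)
`Rl_parity0`: more generally, if `σ` preserves `{k+1,...,l}` then `l - k` is even.

`exp_stp`: if `a` is exposed and not (`i = a` and `σ a = a+1`) then `mk i σ a` is exposed for `act i σ`, `1 ≤ i`, `i + 1 < P`.
Cases: `i + 1 = a`: `c = σ i < a` so `c < i` (as `σ i ≠ i`); new arc `(c, σ a)`. `i = a`: `c = σ (a+1)`, by noncrossing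
`a + 1 < c < σ a`; new arcs `(a,a+1)`, `(c, σ a)`, the points strictly between `a+1` and `c` are matched among themselves.
Otherwise `a` stays: `i + 1 < a`, or `a < i`; in the second case the partner of `a` may change, but stays to the right.
All statements were checked by computer for all noncrossing involutions of up to 10 points.
-/

set_option autoImplicit false

noncomputable section

namespace QS

open Finset

theorem Rl_parity0 {P k l : ℕ} {σ : ℕ → ℕ} (h : IsNC P σ) (hl : l ≤ P) (h1 : Rl0 σ k l) : k % 2 = l % 2 := by
  obtain ⟨hkl, h2⟩ := h1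
  have h3 : ∑ x ∈ Finset.Ioc k l, (1 : ZMod 2) = 0 := by
    refine Finset.sum_involution (fun x _ => σ x) ?_ ?_ ?_ ?_
    · intro x _
      decide
    · intro x hx _
      rw [Finset.mem_Ioc] at hx
      exact (h.1 x (by omega) (by omega)).2.2.1
    · intro x hx
      rw [Finset.mem_Ioc] at hx ⊢
      exact h2 x hx.1 hx.2
    · intro x hx
      rw [Finset.mem_Ioc] at hx
      exact (h.1 x (by omega) (by omega)).2.2.2
  rw [Finset.sum_const, Nat.card_Ioc, nsmul_eq_mul, mul_one, ZMod.natCast_eq_zero_iff] at h3
  omega

theorem exp_odd {P a : ℕ} {σ : ℕ → ℕ} (h : IsNC P σ) (ha : Exp P σ a) : a % 2 = 1 := by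
  obtain ⟨ha1, ha2, ha3, ha4⟩ := ha
  have h1 : Rl0 σ 0 (a - 1) := by
    refine ⟨Nat.zero_le _, fun x hx0 hx1 => ?_⟩
    have h2 := ha3 x (by omega) (by omega)
    have h3 := (h.1 x (by omega) (by omega)).1
    omega
  have h2 := Rl_parity0 h (by omega) h1
  omega

theorem exp_one {P : ℕ} {σ : ℕ → ℕ} (h : IsNC P σ) (hP : 1 < P) : Exp P σ 1 := by
  have h1 := h.1 1 le_rfl (by omega)
  exact ⟨le_rfl, hP, fun x h2 h3 => by omega, by omega⟩

theorem exp_stp {P i a : ℕ} {σ : ℕ → ℕ} (h : IsNC P σ) (h1 : 1 ≤ i) (h2 : i + 1 < P) (ha : Exp P σ a)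
    (hna : ¬(i = a ∧ σ a = a + 1)) : Exp P (act i σ) (mk i σ a) := by
  obtain ⟨ha1, ha2, ha3, ha4⟩ := ha
  obtain ⟨hi, hn⟩ := h
  have hp := hi i h1 (by omega)
  have hq := hi (i + 1) (by omega) (by omega)
  by_cases hc : σ i = i + 1
  · have e1 : mk i σ a = a := by
      unfold mk
      split_ifs with g1 g2
      · have := ha3 i h1 (by omega)
        omega
      · subst g2
        exact absurd ⟨rfl, hc⟩ hna
      · rfl
    have e2 : act i σ = σ := by
      funext x
      unfold act
      rw [if_pos hc]
    rw [e1, e2]
    exact ⟨ha1, ha2, ha3, ha4⟩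
  have hqi : σ (i + 1) ≠ i := by
    intro g
    rw [g] at hq
    omega
  have hpq : σ i ≠ σ (i + 1) := by
    intro g
    rw [← g] at hq
    omega
  by_cases c1 : i + 1 = a
  · have e1 : mk i σ a = σ i := by
      unfold mk
      rw [if_pos c1]
    have g1 := ha3 i h1 (by omega)
    rw [← c1] at ha4
    rw [e1]
    refine ⟨by omega, by omega, ?_, ?_⟩
    · intro x hx1 hx2
      have hx3 := ha3 x hx1 (by omega)
      have hx4 := hi x hx1 (by omega)
      unfold act
      rw [if_neg hc, if_neg (by omega), if_neg (by omega), if_neg (by omega), if_neg (by omega)]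
      have g2 : σ x ≠ i := by
        intro g
        rw [g] at hx4
        omega
      have g3 : σ x ≠ σ i := by
        intro g
        rw [g] at hx4
        omega
      by_contra g4
      have g5 := hn x (σ i) hx1 (by omega) (by omega) (by omega)
      omega
    · unfold act
      rw [if_neg hc, if_neg (by omega), if_neg (by omega), if_pos rfl]
      omega
  by_cases c2 : i = a
  · have e1 : mk i σ a = σ (a + 1) := by
      unfold mk
      rw [if_neg c1, if_pos c2]
    rw [e1]
    subst c2
    have g1 := hn i (i + 1) h1 (by omega) (by omega) (by omega)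
    refine ⟨by omega, by omega, ?_, ?_⟩
    · intro x hx1 hx2
      unfold act
      rw [if_neg hc]
      split_ifs with u1 u2 u3 u4
      · omega
      · omega
      · omega
      · omega
      · rcases Nat.lt_or_ge x i with v | v
        · have := ha3 x hx1 v
          omega
        · have := hn (i + 1) x (by omega) (by omega) (by omega) (by omega)
          omega
    · unfold act
      rw [if_neg hc, if_neg (by omega), if_neg (by omega), if_neg (by omega), if_pos rfl]
      omega
  have e1 : mk i σ a = a := by
    unfold mk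
    rw [if_neg c1, if_neg c2]
  rw [e1]
  rcases Nat.lt_or_ge i a with c3 | c3
  · have g1 := ha3 i h1 c3
    have g2 := ha3 (i + 1) (by omega) (by omega)
    refine ⟨ha1, ha2, ?_, ?_⟩
    · intro x hx1 hx2
      have hx3 := ha3 x hx1 hx2
      unfold act
      rw [if_neg hc]
      split_ifs <;> omega
    · unfold act
      rw [if_neg hc]
      split_ifs <;> omega
  · have g1 : a ≤ σ i := by
      by_contra g
      have := ha3 (σ i) (by omega) (by omega)
      omega
    have g2 : a ≤ σ (i + 1) := by
      by_contra g
      have := ha3 (σ (i + 1)) (by omega) (by omega)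
      omega
    refine ⟨ha1, ha2, ?_, ?_⟩
    · intro x hx1 hx2
      have hx3 := ha3 x hx1 hx2
      unfold act
      rw [if_neg hc]
      split_ifs <;> omega
    · unfold act
      rw [if_neg hc]
      split_ifs <;> omega

end QS
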