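import Pool.Agent.Lib.MP_216314_pr.S.SDefs

/-!
# Noncrossing involutions: the moves

`act_nc`: case analysis. If `σ i = i+1` nothing changes. Otherwise let `a = σ i`, `b = σ (i+1)`; both are different from
`i, i+1` and from each other. New arcs `{i,i+1}`, `{a,b}`, the rest unchanged. By noncrossing there are exactly three cases:
`b < a < i` (if both are left), `a < i < i+1 < b`, `i+1 < b < a` (both right). In each case check the noncrossing condition
for the pairs (old arc, old arc), (old arc, new arc). Checked by computer for all noncrossing involutions of up to 10 points.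
-/

set_option autoImplicit false

noncomputable section

namespace QS

open Finset

theorem sg0_nc (n : ℕ) : IsNC (2 * n + 2) sg0 := by
  constructor
  · intro x hx1 hx2
    unfold sg0
    by_cases h : x % 2 = 1
    · rw [if_pos h, if_neg (by omega)]
      omega
    · rw [if_neg h, if_pos (by omega)]
      omega
  · intro x y hx hxy hy _
    unfold sg0 at hy
    by_cases h : x % 2 = 1
    · rw [if_pos h] at hy
      omega
    · rw [if_neg h] at hy
      omega

theorem act_nc {P i : ℕ} {σ : ℕ → ℕ} (h : IsNC P σ) (h1 : 1 ≤ i) (h2 : i < P) : IsNC P (act i σ) := by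
  by_cases hi : σ i = i + 1
  · have e : act i σ = σ := by
      funext x
      unfold act
      rw [if_pos hi]
    rw [e]
    exact h
  obtain ⟨hinv, hnc⟩ := h
  obtain ⟨a, ha⟩ : ∃ a, σ i = a := ⟨_, rfl⟩
  obtain ⟨b, hb⟩ : ∃ b, σ (i + 1) = b := ⟨_, rfl⟩
  have hi1 := hinv i h1 h2.le
  have hi2 := hinv (i + 1) (by omega) (by omega)
  rw [ha] at hi1 hi
  rw [hb] at hi2
  obtain ⟨ha1, ha2, ha3, hσa⟩ := hi1
  obtain ⟨hb1, hb2, hb3, hσb⟩ := hi2
  have hab : a ≠ b := by
    intro e
    rw [e, hσb] at hσa
    omega
  have hbi : b ≠ i := by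
    intro e
    rw [e, ha] at hσb
    exact hi hσb
  have hact : ∀ x, act i σ x = if x = i then i + 1 else if x = i + 1 then i else
      if x = a then b else if x = b then a else σ x := by
    intro x
    unfold act
    rw [ha, hb, if_neg hi]
  have ti : act i σ i = i + 1 := by
    rw [hact, if_pos rfl]
  have ti1 : act i σ (i + 1) = i := by
    rw [hact, if_neg (by omega), if_pos rfl]
  have ta : act i σ a = b := by
    rw [hact, if_neg ha3, if_neg hi, if_pos rfl]
  have tb : act i σ b = a := by
    rw [hact, if_neg hbi, if_neg hb3, if_neg hab.symm, if_pos rfl]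
  have tz : ∀ x, x ≠ i → x ≠ i + 1 → x ≠ a → x ≠ b → act i σ x = σ x := by
    intro x g1 g2 g3 g4
    rw [hact, if_neg g1, if_neg g2, if_neg g3, if_neg g4]
  have oth : ∀ x, 1 ≤ x → x ≤ P → x ≠ i → x ≠ i + 1 → x ≠ a → x ≠ b →
      σ x ≠ i ∧ σ x ≠ i + 1 ∧ σ x ≠ a ∧ σ x ≠ b := by
    intro x hx1 hx2 g1 g2 g3 g4
    have hx := (hinv x hx1 hx2).2.2.2
    refine ⟨fun e => ?_, fun e => ?_, fun e => ?_, fun e => ?_⟩
    · rw [e, ha] at hx
      exact g3 hx.symm
    · rw [e, hb] at hx
      exact g4 hx.symm
    · rw [e, hσa] at hx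
      exact g1 hx.symm
    · rw [e, hσb] at hx
      exact g2 hx.symm
  constructor
  · intro x hx1 hx2
    by_cases g1 : x = i
    · subst g1
      rw [ti, ti1]
      omega
    by_cases g2 : x = i + 1
    · subst g2
      rw [ti1, ti]
      omega
    by_cases g3 : x = a
    · subst g3
      rw [ta, tb]
      omega
    by_cases g4 : x = b
    · subst g4
      rw [tb, ta]
      omega
    obtain ⟨q1, q2, q3, q4⟩ := oth x hx1 hx2 g1 g2 g3 g4
    rw [tz x g1 g2 g3 g4, tz (σ x) q1 q2 q3 q4]
    exact hinv x hx1 hx2
  · intro x y hx1 hxy hyx hxP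
    have na : ∀ z, a < z → z < i → a < σ z ∧ σ z < i := by
      intro z g1 g2
      have := hnc a z ha1 g1 (by rw [hσa]; exact g2) (by rw [hσa]; omega)
      rwa [hσa] at this
    have nb : ∀ z, b < z → z < i + 1 → b < σ z ∧ σ z < i + 1 := by
      intro z g1 g2
      have := hnc b z hb1 g1 (by rw [hσb]; exact g2) (by rw [hσb]; omega)
      rwa [hσb] at this
    have ni : ∀ z, i < z → z < a → i < σ z ∧ σ z < a := by
      intro z g1 g2
      have := hnc i z h1 g1 (by rw [ha]; exact g2) (by rw [ha]; exact ha2)
      rwa [ha] at this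
    have ni1 : ∀ z, i + 1 < z → z < b → i + 1 < σ z ∧ σ z < b := by
      intro z g1 g2
      have := hnc (i + 1) z (by omega) g1 (by rw [hb]; exact g2) (by rw [hb]; exact hb2)
      rwa [hb] at this
    have nx : ∀ z, x < z → z < σ x → σ x ≤ P → x < σ z ∧ σ z < σ x :=
      fun z g1 g2 g3 => hnc x z hx1 g1 g2 g3
    have hab1 : a < b → a < i ∧ i + 1 < b := by
      intro hlt
      have q1 := na (i + 1)
      have q2 := ni b
      have q3 := ni (i + 1)
      have q4 := ni1 a
      have q5 := nb i
      have q6 := na b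
      have q7 := nb a
      have q8 := ni1 i
      rw [hb] at q1 q3
      rw [hσb] at q2 q6
      rw [hσa] at q4 q7
      rw [ha] at q5 q8
      omega
    have hab2 : b < a → a < i ∨ i + 1 < b := by
      intro hlt
      have q1 := na (i + 1)
      have q2 := ni b
      have q3 := ni (i + 1)
      have q4 := ni1 a
      have q5 := nb i
      have q6 := na b
      have q7 := nb a
      have q8 := ni1 i
      rw [hb] at q1 q3
      rw [hσb] at q2 q6
      rw [hσa] at q4 q7
      rw [ha] at q5 q8
      omega
    by_cases x1 : x = i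
    · rw [x1, ti] at hyx
      omega
    by_cases x2 : x = i + 1
    · rw [x2, ti1] at hyx
      omega
    by_cases x3 : x = a
    · rw [x3] at hxy hyx ⊢
      rw [ta] at hyx ⊢
      have hab3 := hab1 (by omega)
      by_cases y1 : y = i
      · rw [y1, ti]
        omega
      by_cases y2 : y = i + 1
      · rw [y2, ti1]
        omega
      by_cases y3 : y = a
      · omega
      by_cases y4 : y = b
      · omega
      rw [tz y y1 y2 y3 y4]
      have q1 := na y
      have q2 := ni1 y
      omega
    by_cases x4 : x = b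
    · rw [x4] at hxy hyx ⊢
      rw [tb] at hyx ⊢
      have hab3 := hab2 (by omega)
      by_cases y1 : y = i
      · omega
      by_cases y2 : y = i + 1
      · omega
      by_cases y3 : y = a
      · omega
      by_cases y4 : y = b
      · omega
      rw [tz y y1 y2 y3 y4]
      have hy1 : 1 ≤ y := by omega
      have hyP : y ≤ P := by omega
      obtain ⟨r1, r2, r3, r4⟩ := oth y hy1 hyP y1 y2 y3 y4
      have hyy := (hinv y hy1 hyP).2.2.2
      rcases hab3 with hlt | hlt
      · have q1 := nb y
        have q2 := na (σ y)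
        rw [hyy] at q2
        omega
      · have q1 := ni y
        have q2 := ni1 (σ y)
        rw [hyy] at q2
        omega
    rw [tz x x1 x2 x3 x4] at hyx hxP ⊢
    have hxP' : x ≤ P := by omega
    obtain ⟨r1, r2, r3, r4⟩ := oth x hx1 hxP' x1 x2 x3 x4
    have q1 := nx i
    have q2 := nx (i + 1)
    have q3 := nx a
    have q4 := nx b
    rw [ha] at q1
    rw [hb] at q2
    rw [hσa] at q3
    rw [hσb] at q4
    by_cases y1 : y = i
    · rw [y1] at hxy hyx ⊢
      rw [ti]
      omega
    by_cases y2 : y = i + 1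
    · rw [y2] at hxy hyx ⊢
      rw [ti1]
      omega
    by_cases y3 : y = a
    · rw [y3] at hxy hyx ⊢
      rw [ta]
      omega
    by_cases y4 : y = b
    · rw [y4] at hxy hyx ⊢
      rw [tb]
      omega
    rw [tz y y1 y2 y3 y4]
    exact nx y hxy hyx hxP

end QS
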