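import Pool.Agent.Lib.MP_216314_pr.S.SBound
import Pool.Agent.Lib.MP_216314_pr.S.SEnd

/-!
# One period of the random word

`per n`: the letters `1,...,2n,2n,...,1`; every letter is present with probability `1/2`. `AA n`: the period operator. It is symmetric.

`Bd n v C`: all words applied to `v` are bounded by `C` on the sector.
`opH_expand`: expansion over the subwords: `subs l` is the list of the `2 ^ l.length` sublists, `opH l v D = 2⁻^length * ∑ over w in subs l of opW w v D`
(`subs [] = [[]]`, `subs (i :: l) = subs l ++ (subs l).map (i :: ·)`).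
`AA_rest`: `AA n v = δ opW (oddL n) v + rest`, `δ = 2^(-4n)`: the subword `oddL n` of `per n` occurs at least once in `subs (per n)` (letters `1,3,...,2n-1` of the first half): write
`subs (per n) = l1 ++ oddL n :: l2` (`List.append_of_mem`/`List.mem_iff_append`), the rest is `δ` times the sum over `l1 ++ l2`, a list of `2^(4n) - 1` words, and
`‖opW w rest D‖ ≤ δ ∑ ‖opW (w' ++ w) v D‖ ≤ δ (2^(4n) - 1) C`. Then `proj0`.
-/

set_option autoImplicit false

noncomputable section

namespace QS

open Finset

/-- one period -/
def per (n : ℕ) : List ℕ := (List.range (2 * n)).map (fun k => k + 1) ++ (List.range (2 * n)).map (fun k => 2 * n - k)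

/-- the random period operator -/
def AA (n : ℕ) (v : Vc) : Vc := opH (per n) v

/-- all subwords (with multiplicity) -/
def subs : List ℕ → List (List ℕ)
  | [] => [[]]
  | i :: l => subs l ++ (subs l).map (fun w => i :: w)

/-- all words applied to `v` are bounded by `C` on the sector -/
def Bd (n : ℕ) (v : Vc) (C : ℝ) : Prop := ∀ w : List ℕ, (∀ i ∈ w, 1 ≤ i ∧ i ≤ 2 * n) → ∀ D ∈ sec n, ‖opW w v D‖ ≤ C

theorem per_mem {n i : ℕ} (h : i ∈ per n) : 1 ≤ i ∧ i ≤ 2 * n := by
  unfold per at h
  rw [List.mem_append, List.mem_map, List.mem_map] at h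
  rcases h with ⟨k, hk, rfl⟩ | ⟨k, hk, rfl⟩
  · rw [List.mem_range] at hk
    omega
  · rw [List.mem_range] at hk
    omega

theorem subs_length (l : List ℕ) : (subs l).length = 2 ^ l.length := by
  induction l with
  | nil => rfl
  | cons i l ih =>
    show (subs l ++ (subs l).map (fun w => i :: w)).length = _
    rw [List.length_append, List.length_map, ih, List.length_cons, pow_succ]
    ring

theorem subs_mem {l w : List ℕ} (h : w ∈ subs l) : ∀ i ∈ w, i ∈ l := by
  induction l generalizing w with
  | nil =>
    have h1 : w = [] := List.mem_singleton.mp h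
    intro i hi
    rw [h1] at hi
    exact hi
  | cons j l ih =>
    have h1 : w ∈ subs l ++ (subs l).map (fun w => j :: w) := h
    rw [List.mem_append, List.mem_map] at h1
    rcases h1 with h1 | ⟨w', h1, rfl⟩
    · intro i hi
      exact List.mem_cons_of_mem _ (ih h1 i hi)
    · intro i hi
      rw [List.mem_cons] at hi
      rcases hi with hi | hi
      · rw [hi]
        exact List.mem_cons_self
      · exact List.mem_cons_of_mem _ (ih h1 i hi)

theorem subs_sublist {l w : List ℕ} (h : w.Sublist l) : w ∈ subs l := by
  induction h with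
  | slnil => exact List.mem_singleton.mpr rfl
  | cons a _ ih =>
    show _ ∈ subs _ ++ (subs _).map (fun w => a :: w)
    exact List.mem_append_left _ ih
  | cons_cons a _ ih =>
    show _ ∈ subs _ ++ (subs _).map (fun w => a :: w)
    exact List.mem_append_right _ (List.mem_map.mpr ⟨_, ih, rfl⟩)

private theorem sper_half (w : List ℕ) (u u' : Vc) :
    opW w (fun D => (u D + u' D) / 2) = fun D => (opW w u D + opW w u' D) / 2 := by
  have e : (fun D => (u D + u' D) / 2) = fun D => (1 / 2 : ℂ) * (u D + u' D) := by
    funext D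
    ring
  rw [e, opW_smul, opW_add]
  funext D
  ring

private theorem sper_sum_map_half {α : Type} (l : List α) (f g : α → ℂ) :
    (l.map (fun w => (f w + g w) / 2)).sum = ((l.map f).sum + (l.map g).sum) / 2 := by
  induction l with
  | nil => simp
  | cons a l ih =>
    rw [List.map_cons, List.sum_cons, List.map_cons, List.sum_cons, List.map_cons, List.sum_cons, ih]
    ring

theorem opH_expand (l : List ℕ) (v : Vc) (D : Finset ℕ) :
    opH l v D = ((1 : ℂ) / 2) ^ l.length * ((subs l).map (fun w => opW w v D)).sum := by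
  induction l generalizing v with
  | nil =>
    show v D = ((1 : ℂ) / 2) ^ 0 * ([v D].sum)
    rw [List.sum_singleton, pow_zero, one_mul]
  | cons i l ih =>
    show opH l (fun D => (v D + ee i v D) / 2) D =
      ((1 : ℂ) / 2) ^ (i :: l).length * ((subs l ++ (subs l).map (fun w => i :: w)).map
        (fun w => opW w v D)).sum
    rw [ih, List.map_append, List.sum_append, List.map_map, List.length_cons, pow_succ]
    have e : (subs l).map (fun w => opW w (fun D => (v D + ee i v D) / 2) D) =
        (subs l).map (fun w => (opW w v D + opW w (ee i v) D) / 2) := by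
      refine List.map_congr_left fun w _ => ?_
      rw [sper_half]
    have e2 : (subs l).map ((fun w => opW w v D) ∘ fun w => i :: w) =
        (subs l).map (fun w => opW w (ee i v) D) := rfl
    rw [e, e2, sper_sum_map_half]
    ring

theorem oddL_sub (n : ℕ) : (oddL n).Sublist (per n) := by
  have h : ∀ m : ℕ, ((List.range m).map (fun k => 2 * k + 1)).Sublist
      ((List.range (2 * m)).map (fun k => k + 1)) := by
    intro m
    induction m with
    | zero => exact List.Sublist.refl _
    | succ m ih =>
      have e1 : 2 * (m + 1) = 2 * m + 1 + 1 := by ring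
      rw [e1, List.range_succ, List.range_succ, List.range_succ, List.map_append, List.map_append,
        List.map_append, List.append_assoc]
      refine List.Sublist.append ih ?_
      exact List.sublist_append_left _ _
  exact (h n).trans (List.sublist_append_left _ _)

theorem Bd_sum (n : ℕ) (v : Vc) : Bd n v (∑ D' ∈ sec n, ‖v D'‖) := by
  intro w hw D hD
  exact word_bound w hw v hD

theorem Bd_le {n : ℕ} {v : Vc} {C : ℝ} (h : Bd n v C) {D : Finset ℕ} (hD : D ∈ sec n) : ‖v D‖ ≤ C := by
  exact h [] (fun i hi => absurd hi List.not_mem_nil) D hD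

theorem opH_add (l : List ℕ) (v v' : Vc) : opH l (fun D => v D + v' D) = fun D => opH l v D + opH l v' D := by
  induction l generalizing v v' with
  | nil => rfl
  | cons i l ih =>
    show opH l (fun D => ((v D + v' D) + ee i (fun D => v D + v' D) D) / 2) =
      fun D => opH l (fun D => (v D + ee i v D) / 2) D + opH l (fun D => (v' D + ee i v' D) / 2) D
    rw [← ih, ee_add]
    have e : (fun D => ((v D + v' D) + (ee i v D + ee i v' D)) / 2) =
        fun D => (v D + ee i v D) / 2 + (v' D + ee i v' D) / 2 := by
      funext D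
      ring
    rw [e]

theorem opH_smul (l : List ℕ) (c : ℂ) (v : Vc) : opH l (fun D => c * v D) = fun D => c * opH l v D := by
  induction l generalizing v with
  | nil => rfl
  | cons i l ih =>
    show opH l (fun D => (c * v D + ee i (fun D => c * v D) D) / 2) =
      fun D => c * opH l (fun D => (v D + ee i v D) / 2) D
    rw [← ih, ee_smul]
    have e : (fun D => (c * v D + c * ee i v D) / 2) = fun D => c * ((v D + ee i v D) / 2) := by
      funext D
      ring
    rw [e]

theorem opH_append (l l' : List ℕ) (v : Vc) : opH (l ++ l') v = opH l' (opH l v) := by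
  induction l generalizing v with
  | nil => rfl
  | cons i l ih => exact ih (fun D => (v D + ee i v D) / 2)

theorem opH_sec {n : ℕ} (l : List ℕ) (hl : ∀ i ∈ l, 1 ≤ i ∧ i ≤ 2 * n) {v v' : Vc} (h : ∀ D ∈ sec n, v D = v' D) :
    ∀ D ∈ sec n, opH l v D = opH l v' D := by
  induction l generalizing v v' with
  | nil => exact h
  | cons i l ih =>
    have hi := hl i (List.mem_cons_self)
    refine ih (fun j hj => hl j (List.mem_cons_of_mem _ hj)) (v := fun D => (v D + ee i v D) / 2)
      (v' := fun D => (v' D + ee i v' D) / 2) ?_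
    intro D hD
    unfold ee
    rw [h D hD, h _ (swD_sec hi.1 hi.2 hD)]

private theorem sper_ip_add_left (n : ℕ) (v v' w : Vc) :
    ip n (fun D => v D + v' D) w = ip n v w + ip n v' w := by
  unfold ip
  rw [← Finset.sum_add_distrib]
  exact Finset.sum_congr rfl fun D _ => by ring

private theorem sper_ip_add_right (n : ℕ) (v w w' : Vc) :
    ip n v (fun D => w D + w' D) = ip n v w + ip n v w' := by
  unfold ip
  rw [← Finset.sum_add_distrib]
  exact Finset.sum_congr rfl fun D _ => by ring

private theorem sper_ip_half (n : ℕ) (v w w' : Vc) :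
    ip n v (fun D => (w D + w' D) / 2) = (ip n v w + ip n v w') / 2 := by
  unfold ip
  rw [← Finset.sum_add_distrib, Finset.sum_div]
  exact Finset.sum_congr rfl fun D _ => by ring

private theorem sper_ip_comm (n : ℕ) (v w : Vc) : ip n v w = ip n w v := by
  unfold ip
  exact Finset.sum_congr rfl fun D _ => by ring

private theorem sper_half_symm {n i : ℕ} (h1 : 1 ≤ i) (h2 : i ≤ 2 * n) (v w : Vc) :
    ip n v (fun D => (w D + ee i w D) / 2) = ip n (fun D => (v D + ee i v D) / 2) w := by
  rw [sper_ip_half, ip_symm h1 h2, sper_ip_comm n (fun D => (v D + ee i v D) / 2) w, sper_ip_half,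
    sper_ip_comm n w v, sper_ip_comm n w (ee i v)]

private theorem sper_rev {n : ℕ} (l : List ℕ) (hl : ∀ i ∈ l, 1 ≤ i ∧ i ≤ 2 * n) (v w : Vc) :
    ip n v (opH l w) = ip n (opH l.reverse v) w := by
  induction l generalizing v w with
  | nil => rfl
  | cons i l ih =>
    have hi := hl i (List.mem_cons_self)
    rw [List.reverse_cons, opH_append]
    show ip n v (opH l (fun D => (w D + ee i w D) / 2)) =
      ip n (fun D => (opH l.reverse v D + ee i (opH l.reverse v) D) / 2) w
    rw [ih (fun j hj => hl j (List.mem_cons_of_mem _ hj)), sper_half_symm hi.1 hi.2]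

private theorem sper_per_rev (n : ℕ) : (per n).reverse = per n := by
  unfold per
  rw [List.reverse_append]
  have e1 : ((List.range (2 * n)).map (fun k => k + 1)).reverse =
      (List.range (2 * n)).map (fun k => 2 * n - k) := by
    apply List.ext_getElem
    · simp
    · intro i h1 h2
      have hi : i < 2 * n := by
        rw [List.length_map, List.length_range] at h2
        exact h2
      simp only [List.getElem_reverse, List.getElem_map, List.getElem_range, List.length_map,
        List.length_range]
      omega
  have e2 : ((List.range (2 * n)).map (fun k => 2 * n - k)).reverse =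
      (List.range (2 * n)).map (fun k => k + 1) := by
    rw [← e1, List.reverse_reverse]
  rw [e1, e2]

private theorem sper_len (n : ℕ) : (per n).length = 4 * n := by
  unfold per
  rw [List.length_append, List.length_map, List.length_map, List.length_range]
  ring

private theorem sper_opW_sum {α : Type} (w : List ℕ) (l : List α) (f : α → Vc) :
    opW w (fun D => (l.map (fun a => f a D)).sum) = fun D => (l.map (fun a => opW w (f a) D)).sum := by
  induction l with
  | nil =>
    have h := opW_smul w 0 (fun _ => 0)
    simp only [zero_mul] at h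
    exact h
  | cons a l ih =>
    have e : (fun D => ((a :: l).map (fun a => f a D)).sum) =
        fun D => f a D + (fun D => (l.map (fun a => f a D)).sum) D := by
      funext D
      rw [List.map_cons, List.sum_cons]
    rw [e, opW_add, ih]
    funext D
    rw [List.map_cons, List.sum_cons]

private theorem sper_norm_sum {α : Type} (l : List α) (f : α → ℂ) (C : ℝ)
    (h : ∀ a ∈ l, ‖f a‖ ≤ C) : ‖(l.map f).sum‖ ≤ l.length * C := by
  induction l with
  | nil => simp
  | cons a l ih =>
    rw [List.map_cons, List.sum_cons, List.length_cons]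
    have h1 := h a (List.mem_cons_self)
    have h2 := ih (fun b hb => h b (List.mem_cons_of_mem _ hb))
    calc ‖f a + (l.map f).sum‖ ≤ ‖f a‖ + ‖(l.map f).sum‖ := norm_add_le _ _
      _ ≤ C + l.length * C := add_le_add h1 h2
      _ = ((l.length + 1 : ℕ) : ℝ) * C := by push_cast; ring

private theorem sper_half_norm (m : ℕ) : ‖((1 : ℂ) / 2) ^ m‖ = ((1 : ℝ) / 2) ^ m := by
  rw [norm_pow]
  congr 1
  simp

/-- sums of words -/
private theorem sper_Bd {n : ℕ} {v : Vc} {C : ℝ} (h : Bd n v C) (l : List (List ℕ))
    (hl : ∀ u ∈ l, ∀ i ∈ u, 1 ≤ i ∧ i ≤ 2 * n) (m : ℕ) :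
    Bd n (fun D => ((1 : ℂ) / 2) ^ m * (l.map (fun u => opW u v D)).sum)
      (((1 : ℝ) / 2) ^ m * (l.length * C)) := by
  intro w hw D hD
  rw [opW_smul, sper_opW_sum, norm_mul, sper_half_norm]
  refine mul_le_mul_of_nonneg_left ?_ (by positivity)
  refine sper_norm_sum l _ C fun u hu => ?_
  rw [← opW_append]
  refine h (u ++ w) ?_ D hD
  intro i hi
  rw [List.mem_append] at hi
  rcases hi with hi | hi
  · exact hl u hu i hi
  · exact hw i hi

/-- the period operator is symmetric (`per n` is a palindrome, `ip_symm`) -/
theorem ip_AA (n : ℕ) (v w : Vc) : ip n v (AA n w) = ip n (AA n v) w := by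
  unfold AA
  rw [sper_rev (per n) (fun i hi => per_mem hi), sper_per_rev]

theorem AA_rest {n : ℕ} {v : Vc} {C : ℝ} (h : Bd n v C) :
    ∃ r : Vc, (∀ D ∈ sec n, AA n v D = ((1 : ℂ) / 2) ^ (4 * n) * (ip n (v0 n) v * v0 n D) + r D) ∧
      Bd n r ((1 - (1 / 2) ^ (4 * n)) * C) := by
  have h1 : oddL n ∈ subs (per n) := subs_sublist (oddL_sub n)
  obtain ⟨l1, l2, hl⟩ := List.append_of_mem h1
  have hmem : ∀ u ∈ l1 ++ l2, ∀ i ∈ u, 1 ≤ i ∧ i ≤ 2 * n := by
    intro u hu i hi
    have hu2 : u ∈ subs (per n) := by
      rw [hl, List.mem_append, List.mem_cons]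
      rw [List.mem_append] at hu
      rcases hu with hu | hu
      · exact Or.inl hu
      · exact Or.inr (Or.inr hu)
    exact per_mem (subs_mem hu2 i hi)
  have hlen : (l1 ++ l2).length + 1 = 2 ^ (4 * n) := by
    have h2 := subs_length (per n)
    rw [hl, List.length_append, List.length_cons, sper_len] at h2
    rw [List.length_append]
    omega
  refine ⟨fun D => ((1 : ℂ) / 2) ^ (4 * n) * ((l1 ++ l2).map (fun u => opW u v D)).sum, ?_, ?_⟩
  · intro D hD
    unfold AA
    beta_reduce
    rw [opH_expand, hl, sper_len, List.map_append, List.sum_append, List.map_cons, List.sum_cons,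
      List.map_append, List.sum_append, proj0 n v hD]
    ring
  · have h3 := sper_Bd h (l1 ++ l2) hmem (4 * n)
    have e : ((1 : ℝ) / 2) ^ (4 * n) * (((l1 ++ l2).length : ℝ) * C) =
        (1 - (1 / 2) ^ (4 * n)) * C := by
      have h4 : (((l1 ++ l2).length : ℝ)) = 2 ^ (4 * n) - 1 := by
        have : (((l1 ++ l2).length + 1 : ℕ) : ℝ) = ((2 ^ (4 * n) : ℕ) : ℝ) := by rw [hlen]
        push_cast at this
        linarith
      rw [h4]
      have h5 : ((1 : ℝ) / 2) ^ (4 * n) * 2 ^ (4 * n) = 1 := by
        rw [← mul_pow]
        norm_num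
      linear_combination C * h5
    rw [e] at h3
    exact h3

theorem Bd_AA {n : ℕ} {v : Vc} {C : ℝ} (h : Bd n v C) : Bd n (AA n v) C := by
  have h1 : AA n v = fun D => ((1 : ℂ) / 2) ^ (4 * n) *
      ((subs (per n)).map (fun u => opW u v D)).sum := by
    funext D
    unfold AA
    rw [opH_expand, sper_len]
  rw [h1]
  have h3 := sper_Bd h (subs (per n)) (fun u hu i hi => per_mem (subs_mem hu i hi)) (4 * n)
  have e : ((1 : ℝ) / 2) ^ (4 * n) * (((subs (per n)).length : ℝ) * C) = C := by
    rw [subs_length, sper_len]
    push_cast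
    rw [← mul_assoc, ← mul_pow]
    norm_num
  rw [e] at h3
  exact h3

private theorem sper_opH_half (l : List ℕ) (u u' : Vc) :
    opH l (fun D => (u D + u' D) / 2) = fun D => (opH l u D + opH l u' D) / 2 := by
  have e : (fun D => (u D + u' D) / 2) = fun D => (1 / 2 : ℂ) * (u D + u' D) := by
    funext D
    ring
  rw [e, opH_smul, opH_add]
  funext D
  ring

private theorem sper_one {n : ℕ} (l : List ℕ) (hl : ∀ i ∈ l, 1 ≤ i ∧ i ≤ 2 * n) {σ : ℕ → ℕ}
    (h : IsNC (2 * n + 2) σ) : ip n (v0 n) (opH l (vec n σ)) = 1 := by
  induction l generalizing σ with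
  | nil => exact ip_vec h
  | cons i l ih =>
    have hi := hl i (List.mem_cons_self)
    have ih' := fun {τ : ℕ → ℕ} (hτ : IsNC (2 * n + 2) τ) =>
      ih (fun j hj => hl j (List.mem_cons_of_mem _ hj)) hτ
    show ip n (v0 n) (opH l (fun D => (vec n σ D + ee i (vec n σ) D) / 2)) = 1
    rw [vec_act h hi.1 hi.2, sper_opH_half, sper_ip_half, ih' h,
      ih' (act_nc h hi.1 (by omega))]
    norm_num

private theorem sper_iter (n m : ℕ) : ∃ l : List ℕ, (∀ i ∈ l, 1 ≤ i ∧ i ≤ 2 * n) ∧
    ∀ v, (AA n)^[m] v = opH l v := by
  induction m with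
  | zero => exact ⟨[], fun i hi => absurd hi List.not_mem_nil, fun v => rfl⟩
  | succ m ih =>
    obtain ⟨l, hl, h⟩ := ih
    refine ⟨l ++ per n, ?_, ?_⟩
    · intro i hi
      rw [List.mem_append] at hi
      rcases hi with hi | hi
      · exact hl i hi
      · exact per_mem hi
    · intro v
      rw [Function.iterate_succ_apply', h, opH_append]
      rfl

/-- the boundary vector has pairing one with every iterate of itself -/
theorem ip_iter (n m : ℕ) : ip n (v0 n) ((AA n)^[m] (v0 n)) = 1 := by
  obtain ⟨l, hl, h⟩ := sper_iter n m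
  rw [h]
  exact sper_one l hl (sg0_nc n)

end QS
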