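import Pool.Agent.Lib.MP_216314_pr.S.SVec

/-!
# The word `1,3,...,2n-1`

`v0_apply`: for `D ∈ sec n`: `v0 n D = ∏ k < n, (if 2k+1 ∈ D then s⁻¹ else s)` if `D` contains exactly one of `2k+1, 2k+2` for every `k < n` (then `2n+1 ∉ D` by counting), and `0` otherwise.
`proj0`: the word `1,3,...,2n-1` is `|v0><v0|` on the sector. Possible proof: the letters `2k+1` commute and act on disjoint pairs; `ee i v D = arc(D) * (arc(D1) v(D1) + arc(D2) v(D2))` where `arc = s` if the left site of the pair is
not in `D` and `s⁻¹` if it is, `D1, D2 = D, swD i D` (valid if exactly one of `i, i+1` is in `D`, both sides are `0` otherwise): indeed `s * s = s^2`, `s⁻¹ * s⁻¹ = (s^2)⁻¹`, `s * s⁻¹ = 1`.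
Induction on the number `m` of letters: `opW (oddL m) v D = A_m(D) * ∑ over the subsets U of range m of A(U) v(D with the pairs k < m replaced by the choice U)`; for `m = n` and `D ∈ sec n` compatible,
the configurations run through all compatible elements of `sec n`. Any other proof is fine.
-/

set_option autoImplicit false

noncomputable section

namespace QS

open Finset

private theorem spro_last {n : ℕ} {D : Finset ℕ} (hD : D ∈ sec n)
    (h : ∀ k < n, (2 * k + 1 ∈ D ↔ 2 * k + 2 ∉ D)) : 2 * n + 1 ∉ D := by
  intro hlast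
  obtain ⟨h1, h2⟩ := Finset.mem_powersetCard.mp hD
  -- one element of every pair and the last one
  have hmap : Set.InjOn (fun k => if k = n then 2 * n + 1 else if 2 * k + 1 ∈ D then 2 * k + 1 else 2 * k + 2)
      ((range (n + 1) : Finset ℕ) : Set ℕ) := by
    intro a ha b hb hab
    rw [Finset.mem_coe, Finset.mem_range] at ha hb
    simp only at hab
    split_ifs at hab <;> omega
  have hsub : (range (n + 1)).image
      (fun k => if k = n then 2 * n + 1 else if 2 * k + 1 ∈ D then 2 * k + 1 else 2 * k + 2) ⊆ D := by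
    intro x hx
    rw [Finset.mem_image] at hx
    obtain ⟨k, hk, rfl⟩ := hx
    rw [Finset.mem_range] at hk
    by_cases c1 : k = n
    · rw [if_pos c1]
      exact hlast
    · rw [if_neg c1]
      by_cases c2 : 2 * k + 1 ∈ D
      · rw [if_pos c2]
        exact c2
      · rw [if_neg c2]
        by_contra c3
        exact c2 ((h k (by omega)).mpr c3)
  have h3 := Finset.card_le_card hsub
  rw [Finset.card_image_of_injOn hmap, Finset.card_range, h2] at h3
  omega

open Classical in
theorem v0_apply (n : ℕ) {D : Finset ℕ} (hD : D ∈ sec n) : v0 n D =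
    if ∀ k < n, (2 * k + 1 ∈ D ↔ 2 * k + 2 ∉ D) then ∏ k ∈ range n, (if 2 * k + 1 ∈ D then s⁻¹ else s) else 0 := by
  unfold v0 vec Th
  have m1 : ∀ x, x ≠ 2 * n + 2 → (x ∈ insert (2 * n + 2) D ↔ x ∈ D) := by
    intro x hx
    rw [Finset.mem_insert]
    exact ⟨fun h => h.resolve_left hx, Or.inr⟩
  have hcomp : (∀ x ∈ Icc 1 (2 * n + 2), (sg0 x ∈ insert (2 * n + 2) D ↔ x ∉ insert (2 * n + 2) D)) ↔
      (∀ k < n, (2 * k + 1 ∈ D ↔ 2 * k + 2 ∉ D)) := by
    constructor
    · intro h k hk
      have h1 := h (2 * k + 1) (Finset.mem_Icc.mpr (by omega))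
      have e : sg0 (2 * k + 1) = 2 * k + 2 := by
        unfold sg0
        rw [if_pos (by omega)]
      rw [e, m1 _ (by omega), m1 _ (by omega)] at h1
      constructor
      · intro h2 h3
        exact (h1.mp h3) h2
      · intro h2
        by_contra h3
        exact h2 (h1.mpr h3)
    · intro h x hx
      rw [Finset.mem_Icc] at hx
      have hl := spro_last hD h
      rcases Nat.even_or_odd' x with ⟨k, hk | hk⟩
      · -- even
        have e : sg0 x = x - 1 := by
          unfold sg0
          rw [if_neg (by omega)]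
        rw [e]
        by_cases c : k = n + 1
        · have e2 : x - 1 = 2 * n + 1 := by omega
          have e3 : x = 2 * n + 2 := by omega
          rw [e2, m1 _ (by omega), e3]
          constructor
          · intro h2
            exact absurd h2 hl
          · intro h2
            exact absurd (Finset.mem_insert_self _ _) h2
        · have e2 : x - 1 = 2 * (k - 1) + 1 := by omega
          have e3 : x = 2 * (k - 1) + 2 := by omega
          rw [m1 _ (by omega), m1 _ (by omega), e2]
          conv_rhs => rw [e3]
          exact h (k - 1) (by omega)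
      · have e : sg0 x = x + 1 := by
          unfold sg0
          rw [if_pos (by omega)]
        rw [e]
        by_cases c : k = n
        · have e2 : x + 1 = 2 * n + 2 := by omega
          have e3 : x = 2 * n + 1 := by omega
          rw [e2, e3, m1 (2 * n + 1) (by omega)]
          exact ⟨fun _ => hl, fun _ => Finset.mem_insert_self _ _⟩
        · rw [m1 _ (by omega), m1 _ (by omega)]
          have h1 := h k (by omega)
          have e2 : x + 1 = 2 * k + 2 := by omega
          rw [e2, hk]
          constructor
          · intro h2 h3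
            exact (h1.mp h3) h2
          · intro h2
            by_contra h3
            exact h2 (h1.mpr h3)
  by_cases hc : ∀ k < n, (2 * k + 1 ∈ D ↔ 2 * k + 2 ∉ D)
  · rw [if_pos (hcomp.mpr hc), if_pos hc]
    have hl := spro_last hD hc
    have hset : (Icc 1 (2 * n + 2)).filter (fun x => x < sg0 x) =
        (range (n + 1)).image (fun k => 2 * k + 1) := by
      ext x
      rw [Finset.mem_filter, Finset.mem_Icc, Finset.mem_image]
      constructor
      · rintro ⟨h1, h2⟩
        unfold sg0 at h2
        split_ifs at h2 with h3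
        · exact ⟨(x - 1) / 2, Finset.mem_range.mpr (by omega), by omega⟩
        · omega
      · rintro ⟨k, hk, rfl⟩
        rw [Finset.mem_range] at hk
        refine ⟨by omega, ?_⟩
        unfold sg0
        rw [if_pos (by omega)]
        omega
    rw [hset, Finset.prod_image (fun a _ b _ hab => by omega), Finset.prod_range_succ]
    have hlast : 2 * n + 1 ∉ insert (2 * n + 2) D := by
      rw [m1 _ (by omega)]
      exact hl
    rw [if_neg hlast]
    have hs := s_ne
    have hp : ∏ x ∈ range n, (if 2 * x + 1 ∈ insert (2 * n + 2) D then s⁻¹ else s) =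
        ∏ k ∈ range n, (if 2 * k + 1 ∈ D then s⁻¹ else s) := by
      refine Finset.prod_congr rfl fun k hk => ?_
      rw [Finset.mem_range] at hk
      have e : (2 * k + 1 ∈ insert (2 * n + 2) D) = (2 * k + 1 ∈ D) := by
        rw [eq_iff_iff]
        exact m1 _ (by omega)
      simp only [e]
    rw [hp]
    field_simp
  · rw [if_neg (fun h => hc (hcomp.mp h)), if_neg hc, mul_zero]

/-- weight of one pair -/
private def spro_a (k : ℕ) (D : Finset ℕ) : ℂ :=
  if 2 * k + 1 ∈ D then (if 2 * k + 2 ∈ D then 0 else s⁻¹) else (if 2 * k + 2 ∈ D then s else 0)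

private theorem spro_ee (k : ℕ) (v : Vc) (D : Finset ℕ) : ee (2 * k + 1) v D =
    spro_a k D * (spro_a k D * v D + spro_a k (swD (2 * k + 1) D) * v (swD (2 * k + 1) D)) := by
  have hs := s_ne
  have e1 : (2 * k + 1 ∈ swD (2 * k + 1) D) = (2 * k + 2 ∈ D) := by
    rw [eq_iff_iff]
    exact mem_swD_left
  have e2 : (2 * k + 2 ∈ swD (2 * k + 1) D) = (2 * k + 1 ∈ D) := by
    rw [eq_iff_iff]
    exact mem_swD_right
  unfold ee spro_a
  have e3 : 2 * k + 1 + 1 = 2 * k + 2 := rfl
  simp only [e1, e2, e3]
  have f1 : (s ^ 2)⁻¹ = s⁻¹ * s⁻¹ := by rw [pow_two, mul_inv]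
  have f2 : s⁻¹ * s = 1 := inv_mul_cancel₀ hs
  by_cases h1 : 2 * k + 1 ∈ D
  · by_cases h2 : 2 * k + 2 ∈ D
    · simp only [h1, h2, if_true, zero_mul]
    · simp only [h1, h2, if_true, if_false]
      rw [if_neg (by simp), f1]
      linear_combination (-(v (swD (2 * k + 1) D))) * f2
  · by_cases h2 : 2 * k + 2 ∈ D
    · simp only [h1, h2, if_true, if_false]
      rw [if_neg (by simp)]
      linear_combination (-(v (swD (2 * k + 1) D))) * f2
    · simp only [h1, h2, if_false, zero_mul, if_true]

private theorem spro_key (Q p1 p2 q1 q2 C1 C2 : Prop) [Decidable Q] [Decidable p1] [Decidable p2]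
    [Decidable q1] [Decidable q2] [Decidable C1] [Decidable C2]
    (g1 : C1 ↔ (Q ∧ (q1 ↔ p1) ∧ (q2 ↔ p2))) (g2 : C2 ↔ (Q ∧ (q1 ↔ p2) ∧ (q2 ↔ p1))) (X V : ℂ)
    (hz : (if p1 then (if p2 then 0 else s⁻¹) else (if p2 then s else 0)) ≠ 0) :
    (if p1 then (if p2 then 0 else s⁻¹) else (if p2 then s else 0)) * (if C1 then X * V else 0) +
    (if p2 then (if p1 then 0 else s⁻¹) else (if p1 then s else 0)) * (if C2 then X * V else 0) =
    if Q then (X * (if q1 then (if q2 then 0 else s⁻¹) else (if q2 then s else 0))) * V else 0 := by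
  by_cases hp1 : p1
  · by_cases hp2 : p2
    · rw [if_pos hp1, if_pos hp2] at hz
      exact absurd rfl hz
    · by_cases hQ : Q
      · by_cases hq1 : q1
        · by_cases hq2 : q2
          · have c1 : ¬ C1 := fun h => hp2 ((g1.mp h).2.2.mp hq2)
            have c2 : ¬ C2 := fun h => hp2 ((g2.mp h).2.1.mp hq1)
            simp only [c1, c2, hp1, hp2, hQ, hq1, hq2, if_true, if_false]
            ring
          · have c1 : C1 := g1.mpr ⟨hQ, ⟨fun _ => hp1, fun _ => hq1⟩,
              ⟨fun h => absurd h hq2, fun h => absurd h hp2⟩⟩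
            have c2 : ¬ C2 := fun h => hp2 ((g2.mp h).2.1.mp hq1)
            simp only [c1, c2, hp1, hp2, hQ, hq1, hq2, if_true, if_false]
            ring
        · by_cases hq2 : q2
          · have c1 : ¬ C1 := fun h => hp2 ((g1.mp h).2.2.mp hq2)
            have c2 : C2 := g2.mpr ⟨hQ, ⟨fun h => absurd h hq1, fun h => absurd h hp2⟩,
              ⟨fun _ => hp1, fun _ => hq2⟩⟩
            simp only [c1, c2, hp1, hp2, hQ, hq1, hq2, if_true, if_false]
            ring
          · have c1 : ¬ C1 := fun h => hq1 ((g1.mp h).2.1.mpr hp1)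
            have c2 : ¬ C2 := fun h => hq2 ((g2.mp h).2.2.mpr hp1)
            simp only [c1, c2, hp1, hp2, hQ, hq1, hq2, if_true, if_false]
            ring
      · have c1 : ¬ C1 := fun h => hQ (g1.mp h).1
        have c2 : ¬ C2 := fun h => hQ (g2.mp h).1
        simp only [c1, c2, hQ, if_false]
        ring
  · by_cases hp2 : p2
    · by_cases hQ : Q
      · by_cases hq1 : q1
        · by_cases hq2 : q2
          · have c1 : ¬ C1 := fun h => hp1 ((g1.mp h).2.1.mp hq1)
            have c2 : ¬ C2 := fun h => hp1 ((g2.mp h).2.2.mp hq2)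
            simp only [c1, c2, hp1, hp2, hQ, hq1, hq2, if_true, if_false]
            ring
          · have c1 : ¬ C1 := fun h => hp1 ((g1.mp h).2.1.mp hq1)
            have c2 : C2 := g2.mpr ⟨hQ, ⟨fun _ => hp2, fun _ => hq1⟩,
              ⟨fun h => absurd h hq2, fun h => absurd h hp1⟩⟩
            simp only [c1, c2, hp1, hp2, hQ, hq1, hq2, if_true, if_false]
            ring
        · by_cases hq2 : q2
          · have c1 : C1 := g1.mpr ⟨hQ, ⟨fun h => absurd h hq1, fun h => absurd h hp1⟩,
              ⟨fun _ => hp2, fun _ => hq2⟩⟩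
            have c2 : ¬ C2 := fun h => hp1 ((g2.mp h).2.2.mp hq2)
            simp only [c1, c2, hp1, hp2, hQ, hq1, hq2, if_true, if_false]
            ring
          · have c1 : ¬ C1 := fun h => hq2 ((g1.mp h).2.2.mpr hp2)
            have c2 : ¬ C2 := fun h => hq1 ((g2.mp h).2.1.mpr hp2)
            simp only [c1, c2, hp1, hp2, hQ, hq1, hq2, if_true, if_false]
            ring
      · have c1 : ¬ C1 := fun h => hQ (g1.mp h).1
        have c2 : ¬ C2 := fun h => hQ (g2.mp h).1
        simp only [c1, c2, hQ, if_false]
        ring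
    · rw [if_neg hp1, if_neg hp2] at hz
      exact absurd rfl hz

open Classical in
private theorem spro_main (n m : ℕ) (hm : m ≤ n) (v : Vc) : ∀ D ∈ sec n, opW (oddL m) v D =
    (∏ k ∈ range m, spro_a k D) * ∑ E ∈ sec n,
      (if ∀ x, 2 * m < x → (x ∈ E ↔ x ∈ D) then (∏ k ∈ range m, spro_a k E) * v E else 0) := by
  induction m with
  | zero =>
    intro D hD
    have hsub : ∀ E ∈ sec n, E ⊆ Icc 1 (2 * n + 1) := fun E hE => (Finset.mem_powersetCard.mp hE).1
    rw [Finset.sum_eq_single D]
    · rw [if_pos (fun x _ => Iff.rfl), Finset.range_zero, Finset.prod_empty]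
      show v D = _
      ring
    · intro E hE hED
      rw [if_neg]
      intro h
      apply hED
      ext x
      rcases Nat.eq_zero_or_pos x with hx | hx
      · subst hx
        constructor
        · intro h0
          have := Finset.mem_Icc.mp (hsub E hE h0)
          omega
        · intro h0
          have := Finset.mem_Icc.mp (hsub D hD h0)
          omega
      · exact h x (by omega)
    · intro h
      exact absurd hD h
  | succ m ih =>
    intro D hD
    have ih' := ih (by omega)
    have e1 : oddL (m + 1) = oddL m ++ [2 * m + 1] := by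
      unfold oddL
      rw [List.range_succ, List.map_append]
      rfl
    have happ : ∀ (w w' : List ℕ) (u : Vc), opW (w ++ w') u = opW w' (opW w u) := by
      intro w
      induction w with
      | nil => intro w' u; rfl
      | cons i l ihl => intro w' u; exact ihl w' (ee i u)
    rw [e1, happ]
    show ee (2 * m + 1) (opW (oddL m) v) D = _
    have hD1 : swD (2 * m + 1) D ∈ sec n := swD_sec (by omega) (by omega) hD
    rw [spro_ee, ih' D hD, ih' _ hD1]
    have hA : ∏ k ∈ range m, spro_a k (swD (2 * m + 1) D) = ∏ k ∈ range m, spro_a k D := by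
      refine Finset.prod_congr rfl fun k hk => ?_
      rw [Finset.mem_range] at hk
      unfold spro_a
      have f1 : (2 * k + 1 ∈ swD (2 * m + 1) D) = (2 * k + 1 ∈ D) := by
        rw [eq_iff_iff]
        exact mem_swD_ne (by omega) (by omega)
      have f2 : (2 * k + 2 ∈ swD (2 * m + 1) D) = (2 * k + 2 ∈ D) := by
        rw [eq_iff_iff]
        exact mem_swD_ne (by omega) (by omega)
      simp only [f1, f2]
    rw [hA, Finset.prod_range_succ]
    by_cases hz : spro_a m D = 0
    · rw [hz]
      ring
    · have key : spro_a m D * ∑ E ∈ sec n,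
            (if ∀ x, 2 * m < x → (x ∈ E ↔ x ∈ D) then (∏ k ∈ range m, spro_a k E) * v E else 0) +
          spro_a m (swD (2 * m + 1) D) * ∑ E ∈ sec n,
            (if ∀ x, 2 * m < x → (x ∈ E ↔ x ∈ swD (2 * m + 1) D) then
              (∏ k ∈ range m, spro_a k E) * v E else 0) =
          ∑ E ∈ sec n, (if ∀ x, 2 * (m + 1) < x → (x ∈ E ↔ x ∈ D) then
            (∏ k ∈ range (m + 1), spro_a k E) * v E else 0) := by
        rw [Finset.mul_sum, Finset.mul_sum, ← Finset.sum_add_distrib]
        refine Finset.sum_congr rfl fun E _ => ?_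
        have g1 : (∀ x, 2 * m < x → (x ∈ E ↔ x ∈ D)) ↔
            ((∀ x, 2 * (m + 1) < x → (x ∈ E ↔ x ∈ D)) ∧ (2 * m + 1 ∈ E ↔ 2 * m + 1 ∈ D) ∧
              (2 * m + 2 ∈ E ↔ 2 * m + 2 ∈ D)) := by
          constructor
          · intro h
            exact ⟨fun x hx => h x (by omega), h _ (by omega), h _ (by omega)⟩
          · rintro ⟨h1, h2, h3⟩ x hx
            rcases Nat.lt_or_ge (2 * (m + 1)) x with h4 | h4
            · exact h1 x h4
            · rcases Nat.lt_or_ge (2 * m + 1) x with h5 | h5
              · have : x = 2 * m + 2 := by omega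
                rw [this]
                exact h3
              · have : x = 2 * m + 1 := by omega
                rw [this]
                exact h2
        have g2 : (∀ x, 2 * m < x → (x ∈ E ↔ x ∈ swD (2 * m + 1) D)) ↔
            ((∀ x, 2 * (m + 1) < x → (x ∈ E ↔ x ∈ D)) ∧ (2 * m + 1 ∈ E ↔ 2 * m + 2 ∈ D) ∧
              (2 * m + 2 ∈ E ↔ 2 * m + 1 ∈ D)) := by
          constructor
          · intro h
            refine ⟨fun x hx => ?_, ?_, ?_⟩
            · rw [h x (by omega)]
              exact mem_swD_ne (by omega) (by omega)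
            · rw [h _ (by omega)]
              exact mem_swD_left
            · rw [h _ (by omega)]
              exact mem_swD_right
          · rintro ⟨h1, h2, h3⟩ x hx
            rcases Nat.lt_or_ge (2 * (m + 1)) x with h4 | h4
            · rw [h1 x h4]
              exact (mem_swD_ne (by omega) (by omega)).symm
            · rcases Nat.lt_or_ge (2 * m + 1) x with h5 | h5
              · have : x = 2 * m + 1 + 1 := by omega
                rw [this]
                exact h3.trans mem_swD_right.symm
              · have : x = 2 * m + 1 := by omega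
                rw [this]
                exact h2.trans mem_swD_left.symm
        rw [Finset.prod_range_succ]
        have e1' : (2 * m + 1 ∈ swD (2 * m + 1) D) = (2 * m + 2 ∈ D) := by
          rw [eq_iff_iff]
          exact mem_swD_left
        have e2' : (2 * m + 2 ∈ swD (2 * m + 1) D) = (2 * m + 1 ∈ D) := by
          rw [eq_iff_iff]
          exact mem_swD_right
        have hX := spro_key _ (2 * m + 1 ∈ D) (2 * m + 2 ∈ D) (2 * m + 1 ∈ E) (2 * m + 2 ∈ E) _ _
          g1 g2 (∏ k ∈ range m, spro_a k E) (v E) hz
        have hY : spro_a m (swD (2 * m + 1) D) =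
            (if 2 * m + 2 ∈ D then (if 2 * m + 1 ∈ D then 0 else s⁻¹)
              else (if 2 * m + 1 ∈ D then s else 0)) := by
          unfold spro_a
          simp only [e1', e2']
        rw [hY]
        exact hX
      rw [← key]
      ring

/-- the word `1,3,...,2n-1` is a projection of rank one on the sector -/
theorem proj0 (n : ℕ) (v : Vc) {D : Finset ℕ} (hD : D ∈ sec n) : opW (oddL n) v D = ip n (v0 n) v * v0 n D := by
  rw [spro_main n n (le_refl _) v D hD]
  have hv0 : ∀ E ∈ sec n, v0 n E = ∏ k ∈ range n, spro_a k E := by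
    intro E hE
    rw [v0_apply n hE]
    by_cases hc : ∀ k < n, (2 * k + 1 ∈ E ↔ 2 * k + 2 ∉ E)
    · rw [if_pos hc]
      refine Finset.prod_congr rfl fun k hk => ?_
      have h1 := hc k (Finset.mem_range.mp hk)
      unfold spro_a
      by_cases c1 : 2 * k + 1 ∈ E
      · rw [if_pos c1, if_pos c1, if_neg (h1.mp c1)]
      · rw [if_neg c1, if_neg c1, if_pos (by
          by_contra c2
          exact c1 (h1.mpr c2))]
    · rw [if_neg hc]
      push Not at hc
      obtain ⟨k, hk, hc⟩ := hc
      symm
      refine Finset.prod_eq_zero (Finset.mem_range.mpr hk) ?_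
      unfold spro_a
      rcases hc with ⟨c1, c2⟩ | ⟨c1, c2⟩
      · rw [if_pos c1, if_pos c2]
      · rw [if_neg c1, if_neg c2]
  rw [← hv0 D hD]
  unfold ip
  rw [mul_comm]
  by_cases hz : v0 n D = 0
  · rw [hz, mul_zero, mul_zero]
  congr 1
  refine Finset.sum_congr rfl fun E hE => ?_
  rw [← hv0 E hE]
  by_cases hzE : v0 n E = 0
  · rw [hzE]
    simp
  rw [if_pos]
  intro x hx
  have hsub : ∀ E ∈ sec n, E ⊆ Icc 1 (2 * n + 1) := fun E hE => (Finset.mem_powersetCard.mp hE).1
  have hl : ∀ E ∈ sec n, v0 n E ≠ 0 → 2 * n + 1 ∉ E := by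
    intro E hE hne
    rw [v0_apply n hE] at hne
    by_cases hc : ∀ k < n, (2 * k + 1 ∈ E ↔ 2 * k + 2 ∉ E)
    · exact spro_last hE hc
    · rw [if_neg hc] at hne
      exact absurd rfl hne
  have h1 := hl E hE hzE
  have h2 := hl D hD hz
  constructor
  · intro h3
    have := Finset.mem_Icc.mp (hsub E hE h3)
    have e : x = 2 * n + 1 := by omega
    rw [e] at h3
    exact absurd h3 h1
  · intro h3
    have := Finset.mem_Icc.mp (hsub D hD h3)
    have e : x = 2 * n + 1 := by omega
    rw [e] at h3
    exact absurd h3 h2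

theorem v0_ne (n : ℕ) : ∃ D ∈ sec n, v0 n D ≠ 0 := by
  have hD : (range n).image (fun k => 2 * k + 1) ∈ sec n := by
    unfold sec
    rw [Finset.mem_powersetCard]
    constructor
    · intro x hx
      rw [Finset.mem_image] at hx
      obtain ⟨k, hk, rfl⟩ := hx
      rw [Finset.mem_range] at hk
      rw [Finset.mem_Icc]
      omega
    · rw [Finset.card_image_of_injective _ (fun a b hab => by simpa using hab), Finset.card_range]
  refine ⟨_, hD, ?_⟩
  rw [v0_apply n hD, if_pos]
  · refine Finset.prod_ne_zero_iff.mpr fun k _ => ?_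
    split_ifs
    · exact inv_ne_zero s_ne
    · exact s_ne
  · intro k hk
    rw [Finset.mem_image, Finset.mem_image]
    constructor
    · rintro _ ⟨j, _, hj⟩
      omega
    · intro _
      exact ⟨k, Finset.mem_range.mpr hk, rfl⟩

end QS
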