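import Pool.Agent.Lib.MP_216314_pr.S.SEx

/-!
# Connection of regions

Regions `0,...,P-1`; `Rl σ k l`: `σ` preserves the set of the strands between the regions `k` and `l`.
`Rl_parity`: regions of different parity are never connected (`Rl_parity0`). `Rl_trans`: union, difference or intersection of preserved intervals; `σ` is an involution
(e.g. `k ≤ l ≤ m`: union; `k ≤ m ≤ l`: the difference of `{k+1..l}` and `{m+1..l}` is preserved since `σ` is injective).
Checked by computer.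
-/

set_option autoImplicit false

noncomputable section

namespace QS

open Finset

theorem Rl_refl (σ : ℕ → ℕ) (k : ℕ) : Rl σ k k := by
  left
  exact ⟨le_refl k, fun x h1 h2 => absurd h2 (not_le.mpr h1)⟩

theorem Rl_symm {σ : ℕ → ℕ} {k l : ℕ} (h : Rl σ k l) : Rl σ l k := by
  rcases h with h | h
  · exact Or.inr h
  · exact Or.inl h

private theorem srl_union {σ : ℕ → ℕ} {k l m : ℕ} (h1 : Rl0 σ k l) (h2 : Rl0 σ l m) : Rl0 σ k m := by
  refine ⟨h1.1.trans h2.1, fun x hx hxm => ?_⟩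
  rcases le_or_gt x l with hxl | hxl
  · have h3 := h1.2 x hx hxl
    have h4 := h2.1
    exact ⟨h3.1, h3.2.trans h4⟩
  · have h3 := h2.2 x hxl hxm
    have h4 := h1.1
    exact ⟨lt_of_le_of_lt h4 h3.1, h3.2⟩

private theorem srl_top {P : ℕ} {σ : ℕ → ℕ} (h : IsNC P σ) {k l m : ℕ} (hm : m < P)
    (hkm : k ≤ m) (h1 : Rl0 σ k l) (h2 : Rl0 σ m l) : Rl0 σ k m := by
  refine ⟨hkm, fun x hx hxm => ?_⟩
  have h3 := h1.2 x hx (hxm.trans h2.1)
  refine ⟨h3.1, ?_⟩
  by_contra hc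
  have h4 := h2.2 (σ x) (not_le.mp hc) h3.2
  rw [(h.1 x (by omega) (by omega)).2.2.2] at h4
  omega

private theorem srl_bot {P : ℕ} {σ : ℕ → ℕ} (h : IsNC P σ) {k l m : ℕ} (hm : m < P)
    (hkm : k ≤ m) (h1 : Rl0 σ l k) (h2 : Rl0 σ l m) : Rl0 σ k m := by
  refine ⟨hkm, fun x hx hxm => ?_⟩
  have h5 := h1.1
  have h3 := h2.2 x (by omega) hxm
  refine ⟨?_, h3.2⟩
  by_contra hc
  have h4 := h1.2 (σ x) h3.1 (not_lt.mp hc)
  rw [(h.1 x (by omega) (by omega)).2.2.2] at h4
  omega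

theorem Rl_trans {P : ℕ} {σ : ℕ → ℕ} (h : IsNC P σ) {k l m : ℕ} (hk : k < P) (hl : l < P) (hm : m < P)
    (h1 : Rl σ k l) (h2 : Rl σ l m) : Rl σ k m := by
  have _ := hl
  rcases h1 with h1 | h1
  · rcases h2 with h2 | h2
    · exact Or.inl (srl_union h1 h2)
    · rcases le_total k m with hkm | hkm
      · exact Or.inl (srl_top h hm hkm h1 h2)
      · exact Or.inr (srl_top h hk hkm h2 h1)
  · rcases h2 with h2 | h2
    · rcases le_total k m with hkm | hkm
      · exact Or.inl (srl_bot h hm hkm h1 h2)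
      · exact Or.inr (srl_bot h hk hkm h2 h1)
    · exact Or.inr (srl_union h2 h1)

theorem Rl_parity {P : ℕ} {σ : ℕ → ℕ} (h : IsNC P σ) {k l : ℕ} (hk : k < P) (hl : l < P) (h1 : Rl σ k l) :
    k % 2 = l % 2 := by
  rcases h1 with h1 | h1
  · exact Rl_parity0 h hl.le h1
  · exact (Rl_parity0 h hk.le h1).symm

end QS
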