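import Pool.Agent.Lib.MP_216314_pr.S.SRl

/-!
# Connection of regions: the region `i` is cut off

`k`, `l` of the parity of `i`. Proof: wlog `k ≤ l` (`Rl_symm`). If `σ i = i+1` then `act i σ = σ`: `i` is a region enclosed by the arc `(i,i+1)`, so `Rl σ i l` only for `l = i`.
Otherwise let `a = σ i`, `b = σ (i+1)`. `k < l` and `k, l ≠ i`: the pair `{i,i+1}` is contained in `{k+1..l}` or disjoint from it (it is split only if `k = i` or `l = i`);
then `{k+1..l}` is preserved by `σ` iff it is preserved by `act i σ`: in the new involution `i, i+1` are matched, so the condition is that `a, b` are both inside or both outside, and the other arcs;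
in the old one: `a` inside iff `i` inside iff `i+1` inside iff `b` inside. So (old) implies (new). For (new) implies (old): suppose `i, i+1` inside and `a, b` outside (or the other way round): parity:
by noncrossing of the other arcs the points strictly between are matched among themselves, which contradicts the parity of `k` and `i` (`Rl_parity0`): e.g. `a < k+1 ≤ i`, `l < b`: the set `{k+1..i-1}` is preserved by `σ`
(an arc leaving it would cross `(a,i)` or would leave `{k+1..l}`), so `k ≡ i-1`, contradiction. If `a, b` inside, `i, i+1` outside, e.g. `i+1 ≤ k`, `k < b < a ≤ l`: `{i+2..k}` is preserved, contradiction again; same on the other side.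
Checked by computer for all noncrossing involutions of up to 10 points.
-/

set_option autoImplicit false

noncomputable section

namespace QS

open Finset

private theorem srlc_eq {i : ℕ} {σ : ℕ → ℕ} (h : σ i = i + 1) : act i σ = σ := by
  funext x
  unfold act
  rw [if_pos h]

private theorem srlc_i {i : ℕ} {σ : ℕ → ℕ} (h : σ i ≠ i + 1) : act i σ i = i + 1 := by
  unfold act
  rw [if_neg h, if_pos rfl]

private theorem srlc_i1 {i : ℕ} {σ : ℕ → ℕ} (h : σ i ≠ i + 1) : act i σ (i + 1) = i := by
  unfold act
  rw [if_neg h, if_neg (by omega), if_pos rfl]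

private theorem srlc_o {i : ℕ} {σ : ℕ → ℕ} (h : σ i ≠ i + 1) {x : ℕ} (h1 : x ≠ i) (h2 : x ≠ i + 1)
    (h3 : x ≠ σ i) (h4 : x ≠ σ (i + 1)) : act i σ x = σ x := by
  unfold act
  rw [if_neg h, if_neg h1, if_neg h2, if_neg h3, if_neg h4]

private theorem srlc_a {i : ℕ} {σ : ℕ → ℕ} (h : σ i ≠ i + 1) (h1 : σ i ≠ i) :
    act i σ (σ i) = σ (i + 1) := by
  unfold act
  rw [if_neg h, if_neg h1, if_neg h, if_pos rfl]

private theorem srlc_b {i : ℕ} {σ : ℕ → ℕ} (h : σ i ≠ i + 1) (h1 : σ (i + 1) ≠ i)
    (h2 : σ (i + 1) ≠ i + 1) (h3 : σ (i + 1) ≠ σ i) : act i σ (σ (i + 1)) = σ i := by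
  unfold act
  rw [if_neg h, if_neg h1, if_neg h2, if_neg h3, if_pos rfl]

/-- the case `k < l` -/
private theorem srlc_lt {P i : ℕ} {σ : ℕ → ℕ} (h : IsNC P σ) (h1 : 1 ≤ i) (h2 : i + 1 < P) {k l : ℕ}
    (hl : l < P) (hkl : k < l) (hki : k % 2 = i % 2) (hli : l % 2 = i % 2) :
    Rl0 (act i σ) k l ↔ (k ≠ i ∧ l ≠ i ∧ Rl0 σ k l) := by
  have hk : k < P := by omega
  obtain ⟨hinv, hnc⟩ := h
  have hi := hinv i h1 (by omega)
  have hi1 := hinv (i + 1) (by omega) (by omega)
  -- parity
  have par : ∀ u v : ℕ, u < P → v < P → u ≤ v → u % 2 ≠ v % 2 →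
      (∀ x, u < x → x ≤ v → u < σ x ∧ σ x ≤ v) → False := by
    intro u v hu hv huv hp hx
    exact hp (Rl_parity ⟨hinv, hnc⟩ hu hv (Or.inl ⟨huv, hx⟩))
  by_cases hs : σ i = i + 1
  · rw [srlc_eq hs]
    constructor
    · intro h3
      refine ⟨?_, ?_, h3⟩
      · rintro rfl
        have h4 := h3.2 (k + 1) (by omega) (by omega)
        have h5 : σ (k + 1) = k := by
          rw [← hs]
          exact hi.2.2.2
        omega
      · rintro rfl
        have h4 := h3.2 l (by omega) le_rfl
        omega
    · exact fun h3 => h3.2.2
  · have e1 := srlc_i hs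
    have e2 := srlc_i1 hs
    have hbi : σ (i + 1) ≠ i := by
      intro h3
      apply hs
      have h4 := hi1.2.2.2
      rw [h3] at h4
      exact h4
    have hba : σ (i + 1) ≠ σ i := by
      intro h3
      have h4 := congrArg σ h3
      rw [hi1.2.2.2, hi.2.2.2] at h4
      omega
    have e3 := srlc_a hs hi.2.2.1
    have e4 := srlc_b hs hbi hi1.2.2.1 hba
    obtain ⟨a, ha⟩ : ∃ a, a = σ i := ⟨_, rfl⟩
    obtain ⟨b, hb⟩ : ∃ b, b = σ (i + 1) := ⟨_, rfl⟩
    have e5 : ∀ x, x ≠ i → x ≠ i + 1 → x ≠ a → x ≠ b → act i σ x = σ x := by
      intro x g1 g2 g3 g4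
      rw [ha] at g3
      rw [hb] at g4
      exact srlc_o hs g1 g2 g3 g4
    have hσa : σ a = i := by rw [ha]; exact hi.2.2.2
    have hσb : σ b = i + 1 := by rw [hb]; exact hi1.2.2.2
    rw [← ha, ← hb] at e3 e4
    rw [← ha] at hi hs hba
    rw [← hb] at hi1 hbi hba
    constructor
    · rintro ⟨-, h3⟩
      have hk' : k ≠ i := by
        rintro rfl
        have h4 := h3 (k + 1) (by omega) (by omega)
        rw [e2] at h4
        omega
      have hl' : l ≠ i := by
        rintro rfl
        have h4 := h3 l (by omega) le_rfl
        rw [e1] at h4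
        omega
      -- the values at the other points
      have hoth : ∀ x, k < x → x ≤ l → x ≠ i → x ≠ i + 1 → x ≠ a → x ≠ b →
          k < σ x ∧ σ x ≤ l := by
        intro x g1 g2 g3 g4 g5 g6
        have h4 := h3 x g1 g2
        rwa [e5 x g3 g4 g5 g6] at h4
      have hab : (k < a ∧ a ≤ l) ↔ (k < b ∧ b ≤ l) := by
        constructor
        · rintro ⟨g1, g2⟩
          have h4 := h3 a g1 g2
          rwa [e3] at h4
        · rintro ⟨g1, g2⟩
          have h4 := h3 b g1 g2
          rwa [e4] at h4
      -- images of other points are other points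
      have himg : ∀ x, 1 ≤ x → x ≤ P → x ≠ i → x ≠ i + 1 → x ≠ a → x ≠ b →
          σ x ≠ i ∧ σ x ≠ i + 1 ∧ σ x ≠ a ∧ σ x ≠ b ∧ σ (σ x) = x := by
        intro x g1 g2 g3 g4 g5 g6
        have h4 := (hinv x g1 g2).2.2.2
        refine ⟨?_, ?_, ?_, ?_, h4⟩
        · intro h5
          rw [h5, ← ha] at h4
          exact g5 h4.symm
        · intro h5
          rw [h5, ← hb] at h4
          exact g6 h4.symm
        · intro h5
          rw [h5, hσa] at h4
          exact g3 h4.symm
        · intro h5
          rw [h5, hσb] at h4
          exact g4 h4.symm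
      have hia : (k < i ∧ i ≤ l) ↔ (k < a ∧ a ≤ l) := by
        constructor
        · -- case A
          rintro ⟨g1, g2⟩
          by_contra hcon
          have hcb : ¬ (k < b ∧ b ≤ l) := fun h4 => hcon (hab.2 h4)
          rcases Nat.lt_or_ge k a with h4 | h4
          · have h5 : l < a := by
              by_contra h6
              exact hcon ⟨h4, by omega⟩
            have h6 := hnc i (i + 1) h1 (by omega) (by rw [← ha]; omega) (by rw [← ha]; omega)
            rw [← ha, ← hb] at h6
            have h7 : l < b := by
              by_contra h8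
              exact hcb ⟨by omega, by omega⟩
            refine par (i + 1) l (by omega) hl (by omega) (by omega) ?_
            intro x g3 g4
            have g5 := hoth x (by omega) g4 (by omega) (by omega) (by omega) (by omega)
            have g6 := hnc (i + 1) x (by omega) g3 (by rw [← hb]; omega) (by rw [← hb]; omega)
            exact ⟨g6.1, g5.2⟩
          · have h5 : a < i := by omega
            have h8 : ¬ (k < b ∧ b ≤ l) := hcb
            refine par k (i - 1) hk (by omega) (by omega) (by omega) ?_
            intro x g3 g4
            have g7 : x ≠ b := by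
              rintro rfl
              exact hcb ⟨g3, by omega⟩
            have g5 := hoth x g3 (by omega) (by omega) (by omega) (by omega) g7
            have g6 := hnc a x hi.1 (by omega) (by rw [hσa]; omega) (by rw [hσa]; omega)
            rw [hσa] at g6
            exact ⟨g5.1, by omega⟩
        · -- case B
          intro hA
          have hB := hab.1 hA
          by_contra hcon
          rcases Nat.lt_or_ge k i with h4 | h4
          · have h5 : l < i := by
              by_contra h6
              exact hcon ⟨h4, by omega⟩
            have h6 := hnc b i hi1.1 (by omega) (by rw [hσb]; omega) (by rw [hσb]; omega)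
            rw [← ha] at h6
            refine par l (i - 1) hl (by omega) (by omega) (by omega) ?_
            intro x g3 g4
            have g6 := hnc a x hi.1 (by omega) (by rw [hσa]; omega) (by rw [hσa]; omega)
            rw [hσa] at g6
            refine ⟨?_, by omega⟩
            by_contra g7
            obtain ⟨f1, f2, f3, f4, f5⟩ := himg x (by omega) (by omega) (by omega) (by omega)
              (by omega) (by omega)
            have g8 := hoth (σ x) (by omega) (by omega) f1 f2 f3 f4
            rw [f5] at g8
            omega
          · have h4' : i < k := by omega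
            have h6 := hnc i (i + 1) h1 (by omega) (by rw [← ha]; omega) (by rw [← ha]; omega)
            rw [← ha, ← hb] at h6
            refine par (i + 1) k (by omega) hk (by omega) (by omega) ?_
            intro x g3 g4
            have g6 := hnc (i + 1) x (by omega) g3 (by rw [← hb]; omega) (by rw [← hb]; omega)
            rw [← hb] at g6
            refine ⟨g6.1, ?_⟩
            by_contra g7
            obtain ⟨f1, f2, f3, f4, f5⟩ := himg x (by omega) (by omega) (by omega) (by omega)
              (by omega) (by omega)
            have g8 := hoth (σ x) (by omega) (by omega) f1 f2 f3 f4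
            rw [f5] at g8
            omega
      refine ⟨hk', hl', hkl.le, ?_⟩
      intro x g1 g2
      by_cases x1 : x = i
      · subst x1
        rw [← ha]
        exact hia.1 ⟨g1, g2⟩
      · by_cases x2 : x = i + 1
        · subst x2
          rw [← hb]
          exact hab.1 (hia.1 ⟨by omega, by omega⟩)
        · by_cases x3 : x = a
          · subst x3
            rw [hσa]
            exact hia.2 ⟨g1, g2⟩
          · by_cases x4 : x = b
            · subst x4
              rw [hσb]
              have h4 := hia.2 (hab.2 ⟨g1, g2⟩)
              omega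
            · exact hoth x g1 g2 x1 x2 x3 x4
    · rintro ⟨hk', hl', -, h3⟩
      refine ⟨hkl.le, ?_⟩
      intro x g1 g2
      by_cases x1 : x = i
      · subst x1
        rw [e1]
        omega
      · by_cases x2 : x = i + 1
        · subst x2
          rw [e2]
          omega
        · by_cases x3 : x = a
          · subst x3
            rw [e3]
            have h4 := h3 x g1 g2
            rw [hσa] at h4
            have h5 := h3 (i + 1) (by omega) (by omega)
            rwa [← hb] at h5
          · by_cases x4 : x = b
            · subst x4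
              rw [e4]
              have h4 := h3 x g1 g2
              rw [hσb] at h4
              have h5 := h3 i (by omega) (by omega)
              rwa [← ha] at h5
            · rw [e5 x x1 x2 x3 x4]
              exact h3 x g1 g2

theorem Rl_act_cut {P i : ℕ} {σ : ℕ → ℕ} (h : IsNC P σ) (h1 : 1 ≤ i) (h2 : i + 1 < P) {k l : ℕ}
    (hk : k < P) (hl : l < P) (hki : k % 2 = i % 2) (hli : l % 2 = i % 2) :
    Rl (act i σ) k l ↔ k = l ∨ (k ≠ i ∧ l ≠ i ∧ Rl σ k l) := by
  by_cases hkl : k = l
  · subst hkl
    exact ⟨fun _ => Or.inl rfl, fun _ => Rl_refl _ _⟩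
  · rcases Nat.lt_or_ge k l with hlt | hge
    · have h3 := srlc_lt h h1 h2 hl hlt hki hli
      constructor
      · rintro (h4 | h4)
        · have h5 := h3.1 h4
          exact Or.inr ⟨h5.1, h5.2.1, Or.inl h5.2.2⟩
        · exact absurd h4.1 (by omega)
      · rintro (h4 | ⟨h4, h5, h6 | h6⟩)
        · exact absurd h4 hkl
        · exact Or.inl (h3.2 ⟨h4, h5, h6⟩)
        · exact absurd h6.1 (by omega)
    · have hlt : l < k := by omega
      have h3 := srlc_lt h h1 h2 hk hlt hli hki
      constructor
      · rintro (h4 | h4)
        · exact absurd h4.1 (by omega)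
        · have h5 := h3.1 h4
          exact Or.inr ⟨h5.2.1, h5.1, Or.inr h5.2.2⟩
      · rintro (h4 | ⟨h4, h5, h6 | h6⟩)
        · exact absurd h4 hkl
        · exact absurd h6.1 (by omega)
        · exact Or.inr (h3.2 ⟨h5, h4, h6⟩)

end QS
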