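import Pool.Agent.Lib.MP_216314_pr.S.SBas
import Pool.Agent.Lib.MP_216314_pr.S.SNC

/-!
# The spin vector of a noncrossing involution: modulus and sliding

`Th_norm`: modulus at most one (`s_norm`). `Th_Ox`: sliding of the diagonal operator along the arc of `x`: where `Th P σ D` is nonzero, `x ∈ D ↔ σ x ∉ D`.
-/

set_option autoImplicit false

noncomputable section

namespace QS

open Finset

theorem Th_norm (P : ℕ) (σ : ℕ → ℕ) (D : Finset ℕ) : ‖Th P σ D‖ ≤ 1 := by
  classical
  unfold Th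
  split_ifs with h
  · rw [norm_prod]
    apply le_of_eq
    apply Finset.prod_eq_one
    intro x _
    split_ifs
    · rw [norm_inv, s_norm, inv_one]
    · exact s_norm
  · rw [norm_zero]
    exact zero_le_one

theorem Th_Ox {P x : ℕ} {σ : ℕ → ℕ} (h : IsNC P σ) (h1 : 1 ≤ x) (h2 : x ≤ P) : Ox x (Th P σ) = Om (σ x) (Th P σ) := by
  classical
  have _ := h
  funext D
  unfold Ox Om
  by_cases hD : ∀ y ∈ Icc 1 P, (σ y ∈ D ↔ y ∉ D)
  · have hx := hD x (Finset.mem_Icc.mpr ⟨h1, h2⟩)
    by_cases hxD : x ∈ D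
    · have h3 : ¬ σ x ∈ D := fun h4 => (hx.mp h4) hxD
      rw [if_pos hxD, if_neg h3]
    · rw [if_neg hxD, if_pos (hx.mpr hxD)]
  · have h0 : Th P σ D = 0 := by
      unfold Th
      rw [if_neg hD]
    rw [h0, mul_zero]
    split_ifs <;> rfl

end QS
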