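import Pool.Agent.Lib.MP_216314_pr.S.SThA
import Pool.Agent.Lib.MP_216314_pr.S.SEx

/-!
# State vectors

`vec n σ D = s⁻¹ * Th (2n+2) σ (insert (2n+2) D)`. Everything follows from `Th_act`, `Th_Ox` and the elementary facts of `SBas`
(`ee i` for `i ≤ 2n` commutes with the insertion of `2n+2`: `swD_insert`, and so do `Ox a`, `Om a` for `a < 2n+2`).
`stp_vec`: one letter on a marked state; if the mark dies the vector is killed.
 Cases: `a ≠ i, i+1`: `ee_Ox_far`, `vec_act`. `i + 1 = a`: `ee_Ox_right`, then `Om i` on `vec n σ` is `Ox (σ i)` (`Th_Ox` for `x = σ i`, `σ (σ i) = i`), and `σ i < i` since `a` is exposed, so `ee_Ox_far`.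
 `i = a`: `ee_Ox_left`, then `Om (a+1)` is `Ox (σ (a+1))`; if `σ a ≠ a+1` then `σ (a+1) ≠ a, a+1`, `σ (a+1) < 2n+2` (noncrossing: `a+1 < σ (a+1) < σ a`). If `σ a = a+1` (and `i = a`): `vec n σ = ee i (vec n σ)` (`vec_act`, `act i σ = σ`) and `ee_Ox_ee`.
-/

set_option autoImplicit false

noncomputable section

namespace QS

open Finset

/-- vector of a marked state -/
def svec (n : ℕ) : Option ((ℕ → ℕ) × ℕ) → Vc
  | none => fun _ => 0
  | some (σ, a) => Ox a (vec n σ)

/-- admissible states -/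
def Adm (n : ℕ) : Option ((ℕ → ℕ) × ℕ) → Prop
  | none => True
  | some (σ, a) => IsNC (2 * n + 2) σ ∧ Exp (2 * n + 2) σ a

theorem vec_act {n i : ℕ} {σ : ℕ → ℕ} (h : IsNC (2 * n + 2) σ) (h1 : 1 ≤ i) (h2 : i ≤ 2 * n) :
    ee i (vec n σ) = vec n (act i σ) := by
  have h3 := Th_act h h1 (show i < 2 * n + 2 by omega)
  funext D
  have h4 := congrFun h3 (insert (2 * n + 2) D)
  have m1 : (i ∈ insert (2 * n + 2) D) = (i ∈ D) := by
    rw [eq_iff_iff, Finset.mem_insert]
    exact ⟨fun h => h.resolve_left (by omega), Or.inr⟩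
  have m2 : (i + 1 ∈ insert (2 * n + 2) D) = (i + 1 ∈ D) := by
    rw [eq_iff_iff, Finset.mem_insert]
    exact ⟨fun h => h.resolve_left (by omega), Or.inr⟩
  unfold ee at h4 ⊢
  simp only [m1, m2, swD_insert (show 2 * n + 2 ≠ i by omega) (show 2 * n + 2 ≠ i + 1 by omega)] at h4
  unfold vec
  rw [← h4]
  split_ifs <;> ring

theorem vec_norm (n : ℕ) (σ : ℕ → ℕ) (D : Finset ℕ) : ‖vec n σ D‖ ≤ 1 := by
  unfold vec
  rw [norm_mul, norm_inv, s_norm, inv_one, one_mul]
  exact Th_norm _ _ _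

theorem opW_vec {n : ℕ} {σ : ℕ → ℕ} (h : IsNC (2 * n + 2) σ) (w : List ℕ) (hw : ∀ i ∈ w, 1 ≤ i ∧ i ≤ 2 * n) :
    opW w (vec n σ) = vec n (actW w σ) ∧ IsNC (2 * n + 2) (actW w σ) := by
  induction w generalizing σ with
  | nil => exact ⟨rfl, h⟩
  | cons i l ih =>
    have hi := hw i (List.mem_cons_self)
    have h1 := act_nc h hi.1 (show i < 2 * n + 2 by omega)
    have h2 := ih h1 (fun j hj => hw j (List.mem_cons_of_mem _ hj))
    refine ⟨?_, h2.2⟩
    show opW l (ee i (vec n σ)) = vec n (actW l (act i σ))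
    rw [vec_act h hi.1 hi.2]
    exact h2.1

private theorem svec_Ox {n x : ℕ} {σ : ℕ → ℕ} (h : IsNC (2 * n + 2) σ) (h1 : 1 ≤ x)
    (h2 : x < 2 * n + 2) (h3 : σ x < 2 * n + 2) : Ox x (vec n σ) = Om (σ x) (vec n σ) := by
  have h4 := Th_Ox h h1 (show x ≤ 2 * n + 2 by omega)
  funext D
  have h5 := congrFun h4 (insert (2 * n + 2) D)
  have m1 : (x ∈ insert (2 * n + 2) D) = (x ∈ D) := by
    rw [eq_iff_iff, Finset.mem_insert]
    exact ⟨fun h => h.resolve_left (by omega), Or.inr⟩
  have m2 : (σ x ∈ insert (2 * n + 2) D) = (σ x ∈ D) := by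
    rw [eq_iff_iff, Finset.mem_insert]
    exact ⟨fun h => h.resolve_left (by omega), Or.inr⟩
  unfold Ox Om at h5 ⊢
  simp only [m1, m2] at h5
  unfold vec
  have h6 : s⁻¹ * (if x ∈ D then (s ^ 2)⁻¹ * Th (2 * n + 2) σ (insert (2 * n + 2) D)
      else Th (2 * n + 2) σ (insert (2 * n + 2) D)) =
      s⁻¹ * (if σ x ∈ D then Th (2 * n + 2) σ (insert (2 * n + 2) D)
      else (s ^ 2)⁻¹ * Th (2 * n + 2) σ (insert (2 * n + 2) D)) := by rw [h5]
  by_cases c1 : x ∈ D
  · by_cases c2 : σ x ∈ D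
    · simp only [if_pos c1, if_pos c2] at h6 ⊢
      linear_combination h6
    · simp only [if_pos c1, if_neg c2] at h6 ⊢
  · by_cases c2 : σ x ∈ D
    · simp only [if_neg c1, if_pos c2] at h6 ⊢
    · simp only [if_neg c1, if_neg c2] at h6 ⊢
      linear_combination h6

private theorem svec_Om {n i : ℕ} {σ : ℕ → ℕ} (h : IsNC (2 * n + 2) σ) (h1 : 1 ≤ i)
    (h2 : i < 2 * n + 2) (h3 : σ i < 2 * n + 2) : Om i (vec n σ) = Ox (σ i) (vec n σ) := by
  obtain ⟨a1, a2, a3, a4⟩ := h.1 i h1 (by omega)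
  have h4 := svec_Ox h a1 h3 (by rw [a4]; exact h2)
  rw [a4] at h4
  exact h4.symm

theorem stp_vec {n i a : ℕ} {σ : ℕ → ℕ} (h : IsNC (2 * n + 2) σ) (h1 : 1 ≤ i) (h2 : i ≤ 2 * n)
    (ha : Exp (2 * n + 2) σ a) : ee i (svec n (some (σ, a))) = svec n (stp i (some (σ, a))) := by
  by_cases hd : i = a ∧ σ a = a + 1
  · have e1 : stp i (some (σ, a)) = none := by
      unfold stp
      exact if_pos hd
    rw [e1]
    obtain ⟨hia, hsa⟩ := hd
    subst hia
    have e2 : act i σ = σ := by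
      funext x
      unfold act
      rw [if_pos hsa]
    have e3 : ee i (vec n σ) = vec n σ := by
      rw [vec_act h h1 h2, e2]
    show ee i (Ox i (vec n σ)) = fun _ => 0
    rw [← e3]
    exact ee_Ox_ee i _
  · have e1 : stp i (some (σ, a)) = some (act i σ, mk i σ a) := by
      unfold stp
      exact if_neg hd
    rw [e1]
    show ee i (Ox a (vec n σ)) = Ox (mk i σ a) (vec n (act i σ))
    rw [← vec_act h h1 h2]
    obtain ⟨b1, b2, b3, b4⟩ := ha
    by_cases c1 : i + 1 = a
    · have e2 : mk i σ a = σ i := by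
        unfold mk
        rw [if_pos c1]
      subst c1
      have c2 := b3 i h1 (by omega)
      have c3 := (h.1 i h1 (by omega)).2.2.1
      rw [e2, ee_Ox_right, svec_Om h h1 (by omega) (by omega), ee_Ox_far (by omega) (by omega)]
    · by_cases c2 : i = a
      · subst c2
        have e2 : mk i σ i = σ (i + 1) := by
          unfold mk
          rw [if_neg c1, if_pos rfl]
        have c3 : σ i ≠ i + 1 := fun h3 => hd ⟨rfl, h3⟩
        have c4 := (h.1 i h1 (by omega)).2.1
        have c5 := h.2 i (i + 1) h1 (by omega) (by omega) c4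
        have c6 := (h.1 (i + 1) (by omega) (by omega)).2.2.1
        rw [e2, ee_Ox_left, svec_Om h (by omega) (by omega) (by omega),
          ee_Ox_far (by omega) (by omega)]
      · have e2 : mk i σ a = a := by
          unfold mk
          rw [if_neg c1, if_neg c2]
        rw [e2, ee_Ox_far (by omega) (by omega)]

theorem adm_stp {n i : ℕ} (h1 : 1 ≤ i) (h2 : i ≤ 2 * n) {S : Option ((ℕ → ℕ) × ℕ)} (h : Adm n S) : Adm n (stp i S) := by
  cases S with
  | none => exact trivial
  | some S =>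
    obtain ⟨σ, a⟩ := S
    obtain ⟨h3, h4⟩ := h
    by_cases hd : i = a ∧ σ a = a + 1
    · have e1 : stp i (some (σ, a)) = none := by
        unfold stp
        exact if_pos hd
      rw [e1]
      exact trivial
    · have e1 : stp i (some (σ, a)) = some (act i σ, mk i σ a) := by
        unfold stp
        exact if_neg hd
      rw [e1]
      exact ⟨act_nc h3 h1 (by omega), exp_stp h3 h1 (by omega) h4 hd⟩

theorem run_vec {n : ℕ} (w : List ℕ) (hw : ∀ i ∈ w, 1 ≤ i ∧ i ≤ 2 * n) {S : Option ((ℕ → ℕ) × ℕ)} (h : Adm n S) :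
    opW w (svec n S) = svec n (run w S) ∧ Adm n (run w S) := by
  induction w generalizing S with
  | nil => exact ⟨rfl, h⟩
  | cons i l ih =>
    have hi := hw i (List.mem_cons_self)
    have h1 := ih (fun j hj => hw j (List.mem_cons_of_mem _ hj)) (adm_stp hi.1 hi.2 h)
    refine ⟨?_, h1.2⟩
    show opW l (ee i (svec n S)) = svec n (run l (stp i S))
    rw [← h1.1]
    cases S with
    | none =>
      have e : ee i (svec n none) = svec n none := by
        funext D
        show ee i (fun _ => 0) D = 0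
        unfold ee
        split_ifs <;> ring
      rw [e]
      rfl
    | some S =>
      obtain ⟨σ, a⟩ := S
      rw [stp_vec h.1 hi.1 hi.2 h.2]

end QS
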